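import Mathlib

/-!
# The Harish-Chandra chart: unipotent elements which lower a grading
-/

set_option autoImplicit false

open Matrix

namespace Pool.Agent.H61HS

variable {n : ℕ}

/-- `M` lowers the grading `w` by `t` -/
def Low (w : Fin n → ℤ) (t : ℤ) (M : Matrix (Fin n) (Fin n) ℂ) : Prop := ∀ i j, M i j ≠ 0 → w i = w j - t

variable {w : Fin n → ℤ}

lemma Low.one : Low w 0 1 := by
  intro i j h
  by_cases hij : i = j
  · rw [hij, sub_zero]
  · exact absurd (Matrix.one_apply_ne hij) h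

lemma Low.mul {s t : ℤ} {M M' : Matrix (Fin n) (Fin n) ℂ} (h : Low w s M) (h' : Low w t M') : Low w (s + t) (M * M') := by
  intro i j hij
  rw [Matrix.mul_apply] at hij
  obtain ⟨a, -, ha⟩ := Finset.exists_ne_zero_of_sum_ne_zero hij
  have h1 := h i a (left_ne_zero_of_mul ha)
  have h2 := h' a j (right_ne_zero_of_mul ha)
  omega

lemma Low.pow {M : Matrix (Fin n) (Fin n) ℂ} (h : Low w 1 M) (k : ℕ) : Low w k (M ^ k) := by
  induction k with
  | zero => rw [pow_zero]; exact Low.one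
  | succ k ih =>
    rw [pow_succ]
    have := ih.mul h
    push_cast
    exact this

lemma Low.neg {t : ℤ} {M : Matrix (Fin n) (Fin n) ℂ} (h : Low w t M) : Low w t (-M) := by
  intro i j hij
  rw [Matrix.neg_apply] at hij
  exact h i j (fun h0 => hij (by rw [h0, neg_zero]))

lemma Low.nil {M : Matrix (Fin n) (Fin n) ℂ} (h : Low w 1 M) : M ^ n = 0 := by
  ext i j
  rw [Matrix.zero_apply]
  by_contra hij
  have h1 : ∀ t : Fin (n + 1), ∃ a, w a = w j - t := by
    intro t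
    have h2 : M ^ n = M ^ (n - t) * M ^ (t : ℕ) := by rw [← pow_add, Nat.sub_add_cancel (by omega)]
    rw [h2, Matrix.mul_apply] at hij
    obtain ⟨a, -, ha⟩ := Finset.exists_ne_zero_of_sum_ne_zero hij
    exact ⟨a, h.pow t a j (right_ne_zero_of_mul ha)⟩
  choose a ha using h1
  have hinj : Function.Injective a := by
    intro t t' htt
    have h3 := ha t
    have h4 := ha t'
    rw [htt] at h3
    exact Fin.ext (by omega)
  have := Fintype.card_le_of_injective a hinj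
  simp at this

variable {U N : Matrix (Fin n) (Fin n) ℂ}

lemma conj_pow (hU : IsUnit U.det) (k : ℕ) : U⁻¹ * N ^ k * U = (U⁻¹ * N * U) ^ k := by
  induction k with
  | zero => rw [pow_zero, pow_zero, Matrix.mul_one, Matrix.nonsing_inv_mul _ hU]
  | succ k ih =>
    rw [pow_succ, pow_succ, ← ih]
    have h1 : U * U⁻¹ = 1 := Matrix.mul_nonsing_inv _ hU
    calc U⁻¹ * (N ^ k * N) * U = U⁻¹ * N ^ k * 1 * N * U := by simp only [Matrix.mul_assoc, Matrix.one_mul]
      _ = U⁻¹ * N ^ k * (U * U⁻¹) * N * U := by rw [h1]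
      _ = _ := by simp only [Matrix.mul_assoc]

lemma nil_of (hU : IsUnit U.det) (h : Low w 1 (U⁻¹ * N * U)) : N ^ n = 0 := by
  have h1 := h.nil
  rw [← conj_pow hU] at h1
  have h2 : U * (U⁻¹ * N ^ n * U) * U⁻¹ = N ^ n := by
    have h3 : U * U⁻¹ = 1 := Matrix.mul_nonsing_inv _ hU
    calc U * (U⁻¹ * N ^ n * U) * U⁻¹ = (U * U⁻¹) * N ^ n * (U * U⁻¹) := by simp only [Matrix.mul_assoc]
      _ = _ := by rw [h3, Matrix.one_mul, Matrix.mul_one]
  rw [← h2, h1, Matrix.mul_zero, Matrix.zero_mul]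

lemma exp_apply (hU : IsUnit U.det) (h : Low w 1 (U⁻¹ * N * U)) (i j : Fin n) :
    (U⁻¹ * IsNilpotent.exp N * U) i j = ∑ k ∈ Finset.range n, ((k.factorial : ℚ)⁻¹ • ((U⁻¹ * N * U) ^ k) i j) := by
  rw [IsNilpotent.exp_eq_sum (nil_of hU h), Finset.mul_sum, Finset.sum_mul, Matrix.sum_apply]
  refine Finset.sum_congr rfl fun k _ => ?_
  rw [Matrix.mul_smul, Matrix.smul_mul, conj_pow hU, Matrix.smul_apply]

lemma exp_ge (hU : IsUnit U.det) (h : Low w 1 (U⁻¹ * N * U)) {i j : Fin n} (hij : w j ≤ w i) :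
    (U⁻¹ * IsNilpotent.exp N * U) i j = (1 : Matrix (Fin n) (Fin n) ℂ) i j := by
  have hn : 0 < n := i.pos
  rw [exp_apply hU h, Finset.sum_eq_single 0]
  · simp
  · intro k _ hk
    by_contra h0
    have h1 : ((U⁻¹ * N * U) ^ k) i j ≠ 0 := fun h2 => h0 (by rw [h2, smul_zero])
    have := h.pow k i j h1
    omega
  · intro h0
    exact absurd (Finset.mem_range.2 hn) h0

lemma exp_one (hU : IsUnit U.det) (h : Low w 1 (U⁻¹ * N * U)) {i j : Fin n} (hij : w i = w j - 1) :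
    (U⁻¹ * IsNilpotent.exp N * U) i j = (U⁻¹ * N * U) i j := by
  have hne : i ≠ j := by
    rintro rfl
    omega
  have hn : 1 < n := by
    by_contra hn
    apply hne
    have := i.2
    have := j.2
    exact Fin.ext (by omega)
  rw [exp_apply hU h, Finset.sum_eq_single 1]
  · simp
  · intro k _ hk
    by_contra h0
    have h1 : ((U⁻¹ * N * U) ^ k) i j ≠ 0 := fun h2 => h0 (by rw [h2, smul_zero])
    have := h.pow k i j h1
    omega
  · intro h0
    exact absurd (Finset.mem_range.2 hn) h0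

lemma exp_mul_neg (hU : IsUnit U.det) (h : Low w 1 (U⁻¹ * N * U)) :
    IsNilpotent.exp N * IsNilpotent.exp (-N) = 1 ∧ IsNilpotent.exp (-N) * IsNilpotent.exp N = 1 :=
  ⟨IsNilpotent.exp_mul_exp_neg_self ⟨n, nil_of hU h⟩, IsNilpotent.exp_neg_mul_exp_self ⟨n, nil_of hU h⟩⟩

/-- the columns (or rows) in the step of the filtration -/
abbrev Ix (w : Fin n → ℤ) (p : ℤ) : Type := {i : Fin n // p ≤ w i}

variable {p : ℤ}

/-- the square block -/
def blk {R : Type} (w : Fin n → ℤ) (p : ℤ) (M : Matrix (Fin n) (Fin n) R) : Matrix (Ix w p) (Ix w p) R :=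
  M.submatrix Subtype.val Subtype.val

/-- the columns in the step -/
def cols {R : Type} (w : Fin n → ℤ) (p : ℤ) (M : Matrix (Fin n) (Fin n) R) : Matrix (Fin n) (Ix w p) R :=
  M.submatrix id Subtype.val

lemma cols_mul (A B : Matrix (Fin n) (Fin n) ℂ) : cols w p (A * B) = A * cols w p B := by
  ext i j
  simp [cols, Matrix.mul_apply]

lemma neg_low (h : Low w 1 (U⁻¹ * N * U)) : Low w 1 (U⁻¹ * (-N) * U) := by
  rw [Matrix.mul_neg, Matrix.neg_mul]
  exact h.neg

lemma one_val (a b : Ix w p) : (1 : Matrix (Fin n) (Fin n) ℂ) a.1 b.1 = (1 : Matrix (Ix w p) (Ix w p) ℂ) a b := by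
  by_cases hab : a = b
  · subst hab
    rw [Matrix.one_apply_eq, Matrix.one_apply_eq]
  · rw [Matrix.one_apply_ne hab, Matrix.one_apply_ne (fun h => hab (Subtype.ext h))]

lemma blk_exp_det (hU : IsUnit U.det) (h : Low w 1 (U⁻¹ * N * U)) :
    (blk w p (U⁻¹ * IsNilpotent.exp N * U)).det ≠ 0 := by
  have h1 : blk w p (U⁻¹ * IsNilpotent.exp N * U) * blk w p (U⁻¹ * IsNilpotent.exp (-N) * U) = 1 := by
    have h2 : (U⁻¹ * IsNilpotent.exp N * U) * (U⁻¹ * IsNilpotent.exp (-N) * U) = 1 := by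
      have h3 : U * U⁻¹ = 1 := Matrix.mul_nonsing_inv _ hU
      calc (U⁻¹ * IsNilpotent.exp N * U) * (U⁻¹ * IsNilpotent.exp (-N) * U) =
          U⁻¹ * (IsNilpotent.exp N * ((U * U⁻¹) * (IsNilpotent.exp (-N) * U))) := by simp only [Matrix.mul_assoc]
        _ = U⁻¹ * ((IsNilpotent.exp N * IsNilpotent.exp (-N)) * U) := by rw [h3, Matrix.one_mul, Matrix.mul_assoc]
        _ = 1 := by rw [(exp_mul_neg hU h).1, Matrix.one_mul, Matrix.nonsing_inv_mul _ hU]
    ext a b
    have h4 := congrFun (congrFun h2 a.1) b.1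
    rw [Matrix.mul_apply] at h4 ⊢
    have h5 : ∑ c, (U⁻¹ * IsNilpotent.exp N * U) a.1 c * (U⁻¹ * IsNilpotent.exp (-N) * U) c b.1 =
        ∑ c : Ix w p, (U⁻¹ * IsNilpotent.exp N * U) a.1 c.1 * (U⁻¹ * IsNilpotent.exp (-N) * U) c.1 b.1 := by
      rw [← Finset.sum_subtype (Finset.univ.filter fun i => p ≤ w i) (by simp) (fun c =>
        (U⁻¹ * IsNilpotent.exp N * U) a.1 c * (U⁻¹ * IsNilpotent.exp (-N) * U) c b.1)]
      rw [Finset.sum_filter_of_ne]
      intro c _ hc
      by_contra hpc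
      apply hc
      rw [exp_ge hU h (by have := a.2; omega), Matrix.one_apply_ne, zero_mul]
      intro hac
      exact hpc (hac ▸ a.2)
    rw [h5, one_val] at h4
    exact h4
  intro h0
  have h2 := congrArg Matrix.det h1
  rw [Matrix.det_mul, h0, zero_mul, Matrix.det_one] at h2
  exact zero_ne_one h2

/-- the chart -/
theorem chart (hU : IsUnit U.det) (h : Low w 1 (U⁻¹ * N * U)) {X : Matrix (Fin n) (Fin n) ℂ}
    {Y : Matrix (Ix w p) (Ix w p) ℂ} (hX : cols w p X * Y = cols w p (IsNilpotent.exp N * U)) :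
    (blk w p (U⁻¹ * X)).det ≠ 0 ∧ ∀ (i : Fin n) (j : Ix w p), w i = p - 1 → w j = p →
      ∑ l : Ix w p, (U⁻¹ * X) i l * (blk w p (U⁻¹ * X)).adjugate l j =
        (blk w p (U⁻¹ * X)).det * (U⁻¹ * N * U) i j := by
  have h1 : cols w p (U⁻¹ * X) * Y = cols w p (U⁻¹ * IsNilpotent.exp N * U) := by
    rw [cols_mul, Matrix.mul_assoc, hX, ← cols_mul, ← Matrix.mul_assoc]
  have h2 : blk w p (U⁻¹ * X) * Y = blk w p (U⁻¹ * IsNilpotent.exp N * U) := by
    ext a b
    exact congrFun (congrFun h1 a.1) b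
  have hdet : (blk w p (U⁻¹ * X)).det ≠ 0 := by
    intro h0
    apply blk_exp_det (p := p) hU h
    rw [← h2, Matrix.det_mul, h0, zero_mul]
  refine ⟨hdet, fun i j hi hj => ?_⟩
  set A := blk w p (U⁻¹ * X) with hA
  set G := blk w p (U⁻¹ * IsNilpotent.exp N * U) with hG
  have h3 : A.adjugate * G = A.det • Y := by
    rw [← h2, ← Matrix.mul_assoc, Matrix.adjugate_mul, Matrix.smul_mul, Matrix.one_mul]
  set c : Ix w p → ℂ := fun l => (U⁻¹ * X) i l with hc
  have h4 : ∀ b, (c ᵥ* Y) b = (U⁻¹ * IsNilpotent.exp N * U) i b.1 := by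
    intro b
    exact congrFun (congrFun h1 i) b
  have h5 : ((c ᵥ* A.adjugate) ᵥ* G) j = A.det * (U⁻¹ * IsNilpotent.exp N * U) i j.1 := by
    rw [Matrix.vecMul_vecMul, h3, Matrix.vecMul_smul, Pi.smul_apply, h4, smul_eq_mul]
  have h6 : ((c ᵥ* A.adjugate) ᵥ* G) j = (c ᵥ* A.adjugate) j := by
    have h7 : ∀ l, G l j = (1 : Matrix (Ix w p) (Ix w p) ℂ) l j := by
      intro l
      have h8 := exp_ge hU h (i := l.1) (j := j.1) (by have := l.2; omega)
      rw [← one_val]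
      exact h8
    show ∑ l, (c ᵥ* A.adjugate) l * G l j = _
    rw [Finset.sum_eq_single j]
    · rw [h7, Matrix.one_apply_eq, mul_one]
    · intro l _ hl
      rw [h7, Matrix.one_apply_ne hl, mul_zero]
    · intro h0
      exact absurd (Finset.mem_univ _) h0
  rw [h6, exp_one hU h (by rw [hi, hj])] at h5
  exact h5

/-- moving a point in the chart -/
theorem move {N' : Matrix (Fin n) (Fin n) ℂ} (hU : IsUnit U.det) (h : Low w 1 (U⁻¹ * N * U))
    {X : Matrix (Fin n) (Fin n) ℂ}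
    {Y : Matrix (Ix w p) (Ix w p) ℂ} (hX : cols w p X * Y = cols w p (IsNilpotent.exp N * U)) :
    cols w p (IsNilpotent.exp N' * IsNilpotent.exp (-N) * X) * Y = cols w p (IsNilpotent.exp N' * U) := by
  rw [cols_mul, Matrix.mul_assoc, hX, ← cols_mul, Matrix.mul_assoc, ← Matrix.mul_assoc (IsNilpotent.exp (-N)),
    (exp_mul_neg hU h).2, Matrix.one_mul]

end Pool.Agent.H61HS
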