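import Pool.Agent.Y118.HG.Kver
import Pool.Agent.Y113.W.Tup

/-!
# Relations over number fields and relations with rational coefficients; homogenisation
-/

set_option autoImplicit false

open NumberField

namespace Pool.Agent.H61HS

open Pool.Agent.Y113

/-- a relation over a number field of degree `≤ D` gives a relation with integral coefficients: the norm -/
theorem exists_int {d D δ : ℕ} (y : Fin d → ℂ) (K : IntermediateField ℚ ℂ) (hK : FiniteDimensional ℚ K)
    (hD : Module.finrank ℚ K ≤ D) (Q : MvPolynomial (Fin d) K) (hQ : Q ≠ 0) (hδ : Q.totalDegree ≤ δ)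
    (h0 : MvPolynomial.aeval y Q = 0) :
    ∃ M : MvPolynomial (Fin d) ℤ, M ≠ 0 ∧ M.totalDegree ≤ D * δ ∧ MvPolynomial.aeval y M = 0 := by
  classical
  have : NumberField K := { to_charZero := inferInstance, to_finiteDimensional := hK }
  obtain ⟨q, P', hq0, hP'd, hP'⟩ := Pool.Agent.Y118.HG.exists_integral Q
  obtain ⟨M, hM⟩ := Pool.Agent.Y118.HP.exists_norm K P'
  have hcardE : Fintype.card (K →+* ℂ) ≤ D := by rw [NumberField.Embeddings.card]; exact hD
  have hinj : ∀ ψ : K →+* ℂ, Function.Injective (ψ.comp (algebraMap (𝓞 K) K)) := fun ψ =>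
    ψ.injective.comp (FaithfulSMul.algebraMap_injective (𝓞 K) K)
  have hP0 : P' ≠ 0 := by
    rintro rfl
    rw [map_zero] at hP'
    have h1 : (MvPolynomial.C q : MvPolynomial (Fin d) K) ≠ 0 := by
      rw [Ne, MvPolynomial.C_eq_zero]
      exact hq0
    exact (mul_ne_zero h1 hQ) hP'.symm
  have hintc : Function.Injective (Int.castRingHom ℂ) := by exact Int.cast_injective
  refine ⟨M, ?_, ?_, ?_⟩
  · rintro rfl
    rw [map_zero] at hM
    obtain ⟨ψ, -, hψ⟩ := Finset.prod_eq_zero_iff.1 hM.symm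
    exact hP0 ((MvPolynomial.map_injective _ (hinj ψ)) (by rw [hψ, map_zero]))
  · rw [← Pool.Agent.Y118.HP.totalDegree_map_inj hintc M, hM]
    refine (MvPolynomial.totalDegree_finsetProd _ _).trans ?_
    refine (Finset.sum_le_sum fun ψ _ => ((Pool.Agent.Y118.HP.totalDegree_map_le _ P').trans hP'd).trans hδ).trans ?_
    rw [Finset.sum_const, Finset.card_univ, smul_eq_mul]
    exact Nat.mul_le_mul_right _ hcardE
  · rw [Pool.Agent.Y118.HP.aeval_int_map, hM, map_prod, Finset.prod_eq_zero (Finset.mem_univ (algebraMap K ℂ))]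
    rw [← MvPolynomial.map_map, hP', map_mul, MvPolynomial.map_C, map_mul, MvPolynomial.aeval_map_algebraMap, h0,
      mul_zero]


section DC

variable {σ : Type} {V W : Submodule ℚ ℂ}

lemma dc_const {c : ℂ} (hc : c ∈ V) : DC 0 V (MvPolynomial.C c : MvPolynomial σ ℂ) := by
  classical
  refine ⟨by simp, fun s => ?_⟩
  rw [MvPolynomial.coeff_C]
  split_ifs
  · exact hc
  · exact Submodule.zero_mem _

lemma dc_X (h1 : (1 : ℂ) ∈ V) (i : σ) : DC 1 V (MvPolynomial.X i : MvPolynomial σ ℂ) := by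
  classical
  refine ⟨by simp, fun s => ?_⟩
  rw [MvPolynomial.coeff_X]
  split_ifs
  · exact h1
  · exact Submodule.zero_mem _

lemma one_mem_pow (h1 : (1 : ℂ) ∈ V) (m : ℕ) : (1 : ℂ) ∈ V ^ m := by
  have := pow_mono_sub h1 (Nat.zero_le m)
  rw [pow_zero] at this
  exact this (Submodule.one_le.1 le_rfl)

lemma dc_lift {m e : ℕ} {P : MvPolynomial σ ℂ} (h1 : (1 : ℂ) ∈ V) (h : DC m (V ^ m) P) (hme : m ≤ e) :
    DC e (V ^ e) P := h.mono hme (pow_mono_sub h1 hme)

lemma dc_prod {τ : Type} (s : Finset τ) {P : τ → MvPolynomial σ ℂ} {e : τ → ℕ} (_h1 : (1 : ℂ) ∈ V)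
    (h : ∀ i ∈ s, DC (e i) (V ^ e i) (P i)) : DC (∑ i ∈ s, e i) (V ^ (∑ i ∈ s, e i)) (∏ i ∈ s, P i) := by
  classical
  induction s using Finset.induction_on with
  | empty =>
    simp only [Finset.sum_empty, Finset.prod_empty, pow_zero]
    exact DC.one _ (Submodule.one_le.1 le_rfl)
  | insert a s ha ih =>
    rw [Finset.prod_insert ha, Finset.sum_insert ha, pow_add]
    exact (h a (Finset.mem_insert_self a s)).mul (ih fun i hi => h i (Finset.mem_insert_of_mem hi))

lemma dc_neg {m : ℕ} {P : MvPolynomial σ ℂ} (h : DC m V P) : DC m V (-P) := by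
  refine ⟨by rw [MvPolynomial.totalDegree_neg]; exact h.1, fun s => ?_⟩
  rw [MvPolynomial.coeff_neg]
  exact Submodule.neg_mem _ (h.2 s)

lemma dc_zero {m : ℕ} : DC m V (0 : MvPolynomial σ ℂ) := ⟨by simp, fun s => by simp⟩

/-- determinants -/
lemma dc_det {ι : Type} [Fintype ι] [DecidableEq ι] {M : Matrix ι ι (MvPolynomial σ ℂ)} (h1 : (1 : ℂ) ∈ V)
    (h : ∀ i j, DC 1 V (M i j)) : DC (Fintype.card ι) (V ^ Fintype.card ι) M.det := by
  rw [Matrix.det_apply]
  refine DC.sum _ fun τ _ => ?_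
  have h2 := dc_prod (σ := σ) (V := V) Finset.univ (P := fun i => M (τ i) i) (e := fun _ => 1) h1
    (fun i _ => by rw [pow_one]; exact h _ _)
  simp only [Finset.sum_const, Finset.card_univ, smul_eq_mul, mul_one] at h2
  rcases Int.units_eq_one_or (Equiv.Perm.sign τ) with hs | hs
  · rw [hs, one_smul]
    exact h2
  · rw [hs, Units.neg_smul, one_smul]
    exact dc_neg h2

lemma dc_adj {ι : Type} [Fintype ι] [DecidableEq ι] {M : Matrix ι ι (MvPolynomial σ ℂ)} (h1 : (1 : ℂ) ∈ V)
    (h : ∀ i j, DC 1 V (M i j)) (i j : ι) : DC (Fintype.card ι) (V ^ Fintype.card ι) (M.adjugate i j) := by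
  rw [Matrix.adjugate_apply]
  refine dc_det h1 fun a b => ?_
  rw [Matrix.updateRow_apply]
  split_ifs with hab
  · by_cases hb : b = i
    · subst hb
      rw [Pi.single_eq_same]
      exact (DC.one _ h1).mono (by omega) le_rfl
    · rw [Pi.single_eq_of_ne hb]
      exact dc_zero
  · exact h _ _

end DC

/-- homogenisation of a relation with integral coefficients -/
theorem homog {σ : Type} {d e m : ℕ} {V : Submodule ℚ ℂ} (Δ : MvPolynomial σ ℂ)
    (T : Fin d → MvPolynomial σ ℂ) (hΔ : DC e V Δ) (hT : ∀ l, DC e V (T l)) (M : MvPolynomial (Fin d) ℤ)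
    (hM : M.totalDegree ≤ m) :
    ∃ R : MvPolynomial σ ℂ, DC (e * m) (V ^ m) R ∧ ∀ (P : σ → ℂ) (y : Fin d → ℂ),
      (∀ l, MvPolynomial.aeval P (T l) = MvPolynomial.aeval P Δ * y l) →
      MvPolynomial.aeval P R = (MvPolynomial.aeval P Δ) ^ m * MvPolynomial.aeval y M := by
  classical
  have hs : ∀ s ∈ M.support, ∑ i, s i ≤ m := by
    intro s hs
    have h2 := MvPolynomial.le_totalDegree hs
    have h3 : (s.sum fun _ e => e) = ∑ i, s i := by
      rw [Finsupp.sum_fintype]
      simp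
    rw [h3] at h2
    exact h2.trans hM
  refine ⟨∑ s ∈ M.support, MvPolynomial.C ((M.coeff s : ℤ) : ℂ) * (Δ ^ (m - ∑ i, s i) * ∏ i, T i ^ s i),
    DC.sum _ fun s hs' => ?_, fun P y hy => ?_⟩
  · have h1 : DC 0 (1 : Submodule ℚ ℂ) (MvPolynomial.C ((M.coeff s : ℤ) : ℂ) : MvPolynomial σ ℂ) :=
      dc_const (by rw [Submodule.mem_one]; exact ⟨((M.coeff s : ℤ) : ℚ), by simp⟩)
    have h2 : DC (e * (m - ∑ i, s i)) (V ^ (m - ∑ i, s i)) (Δ ^ (m - ∑ i, s i)) := hΔ.pow _
    have h3 : DC (∑ i, e * s i) (V ^ (∑ i, s i)) (∏ i, T i ^ s i) := by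
      have h4 : ∀ t : Finset (Fin d), DC (∑ i ∈ t, e * s i) (V ^ (∑ i ∈ t, s i)) (∏ i ∈ t, T i ^ s i) := by
        intro t
        induction t using Finset.induction_on with
        | empty =>
          simp only [Finset.sum_empty, Finset.prod_empty, pow_zero]
          exact DC.one _ (Submodule.one_le.1 le_rfl)
        | insert a t ha ih =>
          rw [Finset.prod_insert ha, Finset.sum_insert ha, Finset.sum_insert ha, pow_add]
          exact ((hT a).pow _).mul ih
      exact h4 Finset.univ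
    have h5 := h1.mul (h2.mul h3)
    rw [one_mul, ← pow_add, Nat.sub_add_cancel (hs s hs'), ← Finset.mul_sum, zero_add, ← Nat.mul_add,
      Nat.sub_add_cancel (hs s hs')] at h5
    exact h5
  · rw [map_sum]
    have h1 : MvPolynomial.aeval y M = ∑ s ∈ M.support, ((M.coeff s : ℤ) : ℂ) * ∏ i, y i ^ s i := by
      rw [MvPolynomial.aeval_def, MvPolynomial.eval₂_eq']
      rfl
    rw [h1, Finset.mul_sum]
    refine Finset.sum_congr rfl fun s hs' => ?_
    rw [map_mul, map_mul, map_pow, map_prod, MvPolynomial.aeval_C]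
    have h2 : ∏ i, MvPolynomial.aeval P (T i ^ s i) = (MvPolynomial.aeval P Δ) ^ (∑ i, s i) * ∏ i, y i ^ s i := by
      rw [← Finset.prod_pow_eq_pow_sum, ← Finset.prod_mul_distrib]
      refine Finset.prod_congr rfl fun i _ => ?_
      rw [map_pow, hy, mul_pow]
    rw [h2]
    have h3 : (MvPolynomial.aeval P Δ) ^ m = (MvPolynomial.aeval P Δ) ^ (m - ∑ i, s i) *
        (MvPolynomial.aeval P Δ) ^ (∑ i, s i) := by
      rw [← pow_add, Nat.sub_add_cancel (hs s hs')]
    rw [h3]
    simp only [Algebra.algebraMap_self, RingHom.id_apply]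
    ring

end Pool.Agent.H61HS
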