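import Pool.Agent.H61HS.Gal

/-!
# The two main theorems, in terms of relations with integral coefficients
-/

set_option autoImplicit false

open PowerSeries

namespace Pool.Agent.H61HS

open Pool.Agent.Results.MP_f11a48_ag.GeneralFamilies (period Functional GCond)

variable {n : ℕ}

/-- no relations of degree `≤ m` with integral coefficients -/
def NoRel {d : ℕ} (m : ℕ) (y : Fin d → ℂ) : Prop :=
  ∀ M : MvPolynomial (Fin d) ℤ, M ≠ 0 → M.totalDegree ≤ m → MvPolynomial.aeval y M ≠ 0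

/-- relations over number fields -/
theorem NoRel.field {d D δ : ℕ} {y : Fin d → ℂ} (h : NoRel (D * δ) y) (K : IntermediateField ℚ ℂ)
    (hK : FiniteDimensional ℚ K) (hD : Module.finrank ℚ K ≤ D) (Q : MvPolynomial (Fin d) K) (hQ : Q ≠ 0)
    (hδ : Q.totalDegree ≤ δ) : MvPolynomial.aeval y Q ≠ 0 := by
  intro h0
  obtain ⟨M, hM0, hMd, hM⟩ := exists_int y K hK hD Q hQ hδ h0
  exact h M hM0 hMd hM

/-- linear relations -/
theorem NoRel.linear {d D δ : ℕ} {y : Fin d → ℂ} (h : NoRel (D * δ) y) (hδ : 1 ≤ δ) (K : IntermediateField ℚ ℂ)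
    (hK : FiniteDimensional ℚ K) (hD : Module.finrank ℚ K ≤ D) (c : Fin d → K) (hc : ∑ l, (c l : ℂ) * y l = 0) :
    c = 0 := by
  classical
  by_contra hc0
  obtain ⟨l, hl⟩ : ∃ l, c l ≠ 0 := by
    by_contra hcon
    push Not at hcon
    exact hc0 (funext hcon)
  set Q : MvPolynomial (Fin d) K := ∑ l, MvPolynomial.C (c l) * MvPolynomial.X l with hQ
  refine h.field K hK hD Q ?_ ?_ ?_
  · intro h0
    apply hl
    have h1 : MvPolynomial.aeval (Pi.single l (1 : K)) Q = c l := by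
      rw [hQ, map_sum, Finset.sum_eq_single l]
      · rw [map_mul, MvPolynomial.aeval_C, MvPolynomial.aeval_X, Pi.single_eq_same, mul_one]
        rfl
      · intro i _ hi
        rw [map_mul, MvPolynomial.aeval_X, Pi.single_eq_of_ne hi, mul_zero]
      · intro h2
        exact absurd (Finset.mem_univ _) h2
    rw [← h1, h0, map_zero]
  · refine MvPolynomial.totalDegree_finsetSum_le fun i _ => ?_
    refine (MvPolynomial.totalDegree_mul _ _).trans ?_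
    rw [MvPolynomial.totalDegree_C, zero_add, MvPolynomial.totalDegree_X]
    exact hδ
  · rw [hQ, map_sum, ← hc]
    refine Finset.sum_congr rfl fun i _ => ?_
    rw [map_mul, MvPolynomial.aeval_C, MvPolynomial.aeval_X]
    rfl

lemma exists_bound {Z : Matrix (Fin n) (Fin n) ℚ⟦X⟧} (h : ∀ i j, GCond (Z i j)) :
    ∃ C : ℝ, 1 ≤ C ∧ ∀ i j m, |((coeff m (Z i j) : ℚ) : ℝ)| ≤ C ^ (m + 1) := by
  choose c hc using fun i j => h i j
  have h0 : 0 ≤ ∑ i, ∑ j, |c i j| := Finset.sum_nonneg fun i _ => Finset.sum_nonneg fun j _ => abs_nonneg _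
  refine ⟨1 + ∑ i, ∑ j, |c i j|, by linarith, fun i j m => ((hc i j).1 m).trans ?_⟩
  have h1 : |c i j| ≤ ∑ i, ∑ j, |c i j| := by
    have h2 := Finset.single_le_sum (f := fun j => |c i j|) (fun _ _ => abs_nonneg _) (Finset.mem_univ j)
    have h3 := Finset.single_le_sum (f := fun i => ∑ j, |c i j|)
      (fun i _ => Finset.sum_nonneg fun j _ => abs_nonneg _) (Finset.mem_univ i)
    exact h2.trans h3
  calc c i j ^ (m + 1) ≤ |c i j ^ (m + 1)| := le_abs_self _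
    _ = |c i j| ^ (m + 1) := abs_pow _ _
    _ ≤ _ := pow_le_pow_left₀ (abs_nonneg _) (by linarith) _

lemma Galois.mul {Y : Matrix (Fin n) (Fin n) ℂ⟦X⟧} {g h : Matrix (Fin n) (Fin n) ℂ} (hg : g ∈ Galois Y)
    (hh : h ∈ Galois Y) : g * h ∈ Galois Y := by
  intro F hF
  set Φ : Option (Fin n × Fin n) → MvPolynomial (Option (Fin n × Fin n)) ℂ := fun o =>
    o.elim (MvPolynomial.X none) fun q => ∑ a, MvPolynomial.C (g q.1 a) * MvPolynomial.X (some (a, q.2)) with hΦ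
  have hev : ∀ V : Matrix (Fin n) (Fin n) ℂ⟦X⟧,
      MvPolynomial.aeval (fun o : Option (Fin n × Fin n) => o.elim PowerSeries.X fun q => V q.1 q.2)
        (MvPolynomial.aeval Φ F) =
      MvPolynomial.aeval (fun o : Option (Fin n × Fin n) => o.elim PowerSeries.X fun q =>
        (g.map PowerSeries.C * V) q.1 q.2) F := by
    intro V
    rw [MvPolynomial.comp_aeval_apply]
    congr 1
    congr 1
    funext o
    rcases o with _ | q
    · simp [hΦ]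
    · simp only [hΦ, Option.elim]
      rw [map_sum, Matrix.mul_apply]
      refine Finset.sum_congr rfl fun a _ => ?_
      rw [map_mul, MvPolynomial.aeval_C, MvPolynomial.aeval_X]
      rfl
  have h1 := hh (MvPolynomial.aeval Φ F) (by rw [hev]; exact hg F hF)
  rw [hev, ← Matrix.mul_assoc] at h1
  have h2 : (g * h).map (PowerSeries.C (R := ℂ)) = g.map PowerSeries.C * h.map PowerSeries.C := Matrix.map_mul
  rw [h2]
  exact h1

lemma cmb_neg {k d : ℕ} (b : Fin d → Fin k → Matrix (Fin n) (Fin n) ℂ) (y : Fin d → ℂ) (s : Fin k) :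
    -cmb b y s = cmb b (-y) s := by
  unfold cmb
  rw [← Finset.sum_neg_distrib]
  exact Finset.sum_congr rfl fun l _ => by rw [Pi.neg_apply, neg_smul]

/-- the period matrices -/
noncomputable def pmats {k : ℕ} (Ω : Matrix (Fin n) (Fin n) ℂ) (Z : Matrix (Fin n) (Fin n) ℚ⟦X⟧) (m : Fin k → ℕ)
    (s : Fin k) : Matrix (Fin n) (Fin n) ℂ := Matrix.of fun i j => period Ω Z (m s) (i, j)

/-- relations of bounded degree propagate -/
lemma propagate {k d : ℕ} {Ω : Matrix (Fin n) (Fin n) ℂ} {Z : Matrix (Fin n) (Fin n) ℚ⟦X⟧} {C : ℝ} (hC : 1 ≤ C)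
    (hZ : ∀ i j m, |((coeff m (Z i j) : ℚ) : ℝ)| ≤ C ^ (m + 1)) {b : Fin d → Fin k → Matrix (Fin n) (Fin n) ℂ}
    (hgal : ∀ y s, IsNilpotent.exp (cmb b y s) ∈ Galois (fund Ω Z)) {x₀ δ : ℕ} (hx₀ : (x₀ : ℝ) ≤ C)
    {V : Submodule ℚ ℂ} {m : Fin k → ℕ} (hm : ∀ s, C < m s) (hfun : Functional Ω Z x₀ δ V m) (y : Fin d → ℂ)
    (R : MvPolynomial (Fin k × (Fin n × Fin n)) ℂ) (hRd : R.totalDegree ≤ δ) (hRc : ∀ s, R.coeff s ∈ V)
    (hR : MvPolynomial.aeval (ent (pmats Ω Z m)) R = 0) (y' : Fin d → ℂ) :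
    MvPolynomial.aeval
      (ent fun s => IsNilpotent.exp (cmb b y' s) * IsNilpotent.exp (-cmb b y s) * pmats Ω Z m s) R = 0 := by
  obtain ⟨F, hF1, hF2⟩ := hfun R hRd hRc hR
  have h1 := prop_many hC hZ (fun s => IsNilpotent.exp (cmb b y' s) * IsNilpotent.exp (-cmb b y s))
    (fun s => Galois.mul (hgal y' s) (by rw [cmb_neg]; exact hgal (-y) s)) F
    (fun x hx => hF1 x fun l => lt_of_le_of_lt hx₀ (hx l)) Finset.univ (fun s => (m s : ℝ)) hm
  rw [← hF2, MvPolynomial.comp_aeval_apply, ← h1]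
  congr 1
  congr 1
  funext i
  rcases i with l | q
  · simp only [Sum.elim_inl]
    rw [MvPolynomial.aeval_C]
    rfl
  · simp only [Sum.elim_inr]
    rw [MvPolynomial.aeval_X, if_pos (Finset.mem_univ _)]
    show ((IsNilpotent.exp (cmb b y' q.1) * IsNilpotent.exp (-cmb b y q.1)) * pmats Ω Z m q.1) q.2.1 q.2.2 = _
    rw [Matrix.mul_apply]
    rfl

open Classical in
/-- families with large monodromy -/
theorem families (n : ℕ) (f : Polynomial ℚ) (A : Matrix (Fin n) (Fin n) (Polynomial ℚ))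
    (Z W : Matrix (Fin n) (Fin n) ℚ⟦X⟧) (hf : f.coeff 0 ≠ 0)
    (hode : ∀ i j, (f : ℚ⟦X⟧) * PowerSeries.derivative ℚ (Z i j) = ∑ k, Z i k * (A k j : ℚ⟦X⟧))
    (hW : W * Z = 1) (hGZ : ∀ i j, GCond (Z i j)) (hGW : ∀ i j, GCond (W i j)) :
    ∃ x₀ G : ℕ, ∀ k d m₀ : ℕ,
      (∃ M : ℕ, ∃ c : ℝ, 0 < c ∧ ∀ (Ω : Matrix (Fin n) (Fin n) ℂ) (w : Fin n → ℤ) (p : ℤ)
        (U : Fin k → Matrix (Fin n) (Fin n) ℂ) (b : Fin d → Fin k → Matrix (Fin n) (Fin n) ℂ), IsUnit Ω →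
        (∀ s, IsUnit (U s).det) → (∀ l s, Low w 1 ((U s)⁻¹ * b l s * U s)) →
        (∀ y : Fin d → ℂ, (∀ s i j, w i = p - 1 → w j = p → ((U s)⁻¹ * cmb b y s * U s) i j = 0) → y = 0) →
        (∀ y s, IsNilpotent.exp (cmb b y s) ∈ Galois (fund Ω Z)) → ∀ N : ℕ, x₀ < N →
        ∃ S : Finset ℕ, S.card ≤ M ∧ ∀ m : Fin k → ℕ, (∀ i j, i ≠ j → (G : ℤ) ≤ |(m i : ℤ) - m j|) →
          (∀ i, N ≤ m i ∧ (m i : ℝ) ≤ N + (N : ℝ) ^ c ∧ m i ∉ S) → ∀ y : Fin d → ℂ,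
          (∀ s, ∃ Y : Matrix (Ix w p) (Ix w p) ℂ, cols w p (pmats Ω Z m s) * Y = cols w p (IsNilpotent.exp (cmb b y s) * U s)) →
          NoRel m₀ y) ∧
      ∃ c : ℝ, 0 < c ∧ ∃ C : ℝ, ∀ (Ω : Matrix (Fin n) (Fin n) ℂ) (w : Fin n → ℤ) (p : ℤ)
        (U : Fin k → Matrix (Fin n) (Fin n) ℂ) (b : Fin d → Fin k → Matrix (Fin n) (Fin n) ℂ), IsUnit Ω →
        (∀ s, IsUnit (U s).det) → (∀ l s, Low w 1 ((U s)⁻¹ * b l s * U s)) →
        (∀ y : Fin d → ℂ, (∀ s i j, w i = p - 1 → w j = p → ((U s)⁻¹ * cmb b y s * U s) i j = 0) → y = 0) →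
        (∀ y s, IsNilpotent.exp (cmb b y s) ∈ Galois (fund Ω Z)) → ∀ T : ℕ, 1 ≤ T →
        (((Fintype.piFinset fun _ : Fin k => Finset.Ioc x₀ T).filter fun m => ∃ y : Fin d → ℂ,
          (∀ s, ∃ Y : Matrix (Ix w p) (Ix w p) ℂ, cols w p (pmats Ω Z m s) * Y = cols w p (IsNilpotent.exp (cmb b y s) * U s)) ∧
          ¬ NoRel m₀ y).card : ℝ) ≤ C * (T : ℝ) ^ ((k : ℝ) - c) := by
  obtain ⟨x₁, G, hmain⟩ := Pool.Agent.Results.MP_f11a48_ag.GeneralFamilies.result n f A Z W hf hode hW hGZ hGW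
  obtain ⟨C₁, hC₁, hZ₁⟩ := exists_bound hGZ
  set C : ℝ := max C₁ x₁ with hCdef
  have hC : 1 ≤ C := hC₁.trans (le_max_left _ _)
  have hZ : ∀ i j m, |((coeff m (Z i j) : ℚ) : ℝ)| ≤ C ^ (m + 1) := fun i j m =>
    (hZ₁ i j m).trans (pow_le_pow_left₀ (by linarith) (le_max_left _ _) _)
  have hx₁ : (x₁ : ℝ) ≤ C := le_max_right _ _
  refine ⟨max ⌈C⌉₊ 1, G, fun k d m₀ => ?_⟩
  have hlarge : ∀ m : ℕ, max ⌈C⌉₊ 1 < m → C < m := by
    intro m hm
    exact (Nat.le_ceil C).trans_lt (by exact_mod_cast lt_of_le_of_lt (le_max_left _ _) hm)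
  obtain ⟨⟨M, c, hc, hwin⟩, c', hc', C', hcount⟩ := hmain k ((n * k + 2) * m₀) (bd n k d m₀)
  refine ⟨⟨M, c, hc, fun Ω w p U b hΩ hU hb hinj hgal N hN => ?_⟩, c', hc', C', fun Ω w p U b hΩ hU hb hinj hgal T hT => ?_⟩
  · obtain ⟨V, hVf, hVr, hV⟩ := core w p U b hU hb hinj m₀
    obtain ⟨S, hS, hS'⟩ := hwin Ω hΩ V hVf hVr N (by have := le_max_right ⌈C⌉₊ 1; omega)
    refine ⟨S, hS, fun m hsep hm y hy => ?_⟩
    have hfun := hS' m hsep hm
    refine hV (pmats Ω Z m) y hy fun R hRd hRc hR y' => ?_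
    exact propagate hC hZ hgal hx₁ (fun s => hlarge _ (lt_of_lt_of_le hN (hm s).1)) hfun y R hRd hRc hR y'
  · obtain ⟨V, hVf, hVr, hV⟩ := core w p U b hU hb hinj m₀
    refine le_trans ?_ (hcount Ω hΩ V hVf hVr T hT)
    refine Nat.cast_le.2 (Finset.card_le_card fun m hm => ?_)
    obtain ⟨hm1, y, hy, hno⟩ := Finset.mem_filter.1 hm
    rw [Fintype.mem_piFinset] at hm1
    refine Finset.mem_filter.2 ⟨Fintype.mem_piFinset.2 fun s => ?_, fun hfun => hno ?_⟩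
    · have h1 := Finset.mem_Ioc.1 (hm1 s)
      have h2 := le_max_right ⌈C⌉₊ 1
      exact Finset.mem_Icc.2 ⟨by omega, h1.2⟩
    · refine hV (pmats Ω Z m) y hy fun R hRd hRc hR y' => ?_
      exact propagate hC hZ hgal hx₁ (fun s => hlarge _ (Finset.mem_Ioc.1 (hm1 s)).1) hfun y R hRd hRc hR y'

end Pool.Agent.H61HS
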