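import Pool.Agent.H61HS.Core
import Pool.Agent.H61HS.Chart

/-!
# Polynomial relations between the Harish-Chandra coordinates
-/

set_option autoImplicit false

open Matrix

namespace Pool.Agent.H61HS

open Pool.Agent.Y113

variable {n k d : ℕ}

/-- the combination of the families `b l` -/
noncomputable def cmb (b : Fin d → Fin k → Matrix (Fin n) (Fin n) ℂ) (y : Fin d → ℂ) (s : Fin k) :
    Matrix (Fin n) (Fin n) ℂ := ∑ l, y l • b l s

/-- the entries -/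
def ent (P : Fin k → Matrix (Fin n) (Fin n) ℂ) : Fin k × (Fin n × Fin n) → ℂ := fun q => P q.1 q.2.1 q.2.2

lemma cmb_low {w : Fin n → ℤ} {U : Fin k → Matrix (Fin n) (Fin n) ℂ} {b : Fin d → Fin k → Matrix (Fin n) (Fin n) ℂ}
    (hb : ∀ l s, Low w 1 ((U s)⁻¹ * b l s * U s)) (y : Fin d → ℂ) (s : Fin k) :
    Low w 1 ((U s)⁻¹ * cmb b y s * U s) := by
  intro i j hij
  have h1 : (U s)⁻¹ * cmb b y s * U s = ∑ l, y l • ((U s)⁻¹ * b l s * U s) := by
    unfold cmb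
    rw [Finset.mul_sum, Finset.sum_mul]
    refine Finset.sum_congr rfl fun l _ => ?_
    rw [Matrix.mul_smul, Matrix.smul_mul]
  rw [h1, Matrix.sum_apply] at hij
  obtain ⟨l, -, hl⟩ := Finset.exists_ne_zero_of_sum_ne_zero hij
  rw [Matrix.smul_apply, smul_eq_mul] at hl
  exact hb l s i j (right_ne_zero_of_mul hl)

/-- the matrix `U⁻¹ X` with variables as entries of `X` -/
noncomputable def PX (U : Fin k → Matrix (Fin n) (Fin n) ℂ) (s : Fin k) :
    Matrix (Fin n) (Fin n) (MvPolynomial (Fin k × (Fin n × Fin n)) ℂ) :=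
  Matrix.of fun i j => ∑ a, MvPolynomial.C ((U s)⁻¹ i a) * MvPolynomial.X (s, (a, j))

lemma PX_eval (U P : Fin k → Matrix (Fin n) (Fin n) ℂ) (s : Fin k) (i j : Fin n) :
    MvPolynomial.aeval (ent P) (PX U s i j) = ((U s)⁻¹ * P s) i j := by
  unfold PX
  rw [Matrix.of_apply, map_sum, Matrix.mul_apply]
  refine Finset.sum_congr rfl fun a _ => ?_
  rw [map_mul, MvPolynomial.aeval_C, MvPolynomial.aeval_X]
  rfl

lemma PX_dc {U : Fin k → Matrix (Fin n) (Fin n) ℂ} {V : Submodule ℚ ℂ} (_h1 : (1 : ℂ) ∈ V)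
    (hV : ∀ s i j, (U s)⁻¹ i j ∈ V) (s : Fin k) (i j : Fin n) : DC 1 V (PX U s i j) := by
  classical
  unfold PX
  rw [Matrix.of_apply]
  refine DC.sum _ fun a _ => ⟨?_, fun t => ?_⟩
  · refine (MvPolynomial.totalDegree_mul _ _).trans ?_
    rw [MvPolynomial.totalDegree_C, zero_add, MvPolynomial.totalDegree_X]
  · rw [MvPolynomial.coeff_C_mul, MvPolynomial.coeff_X]
    split_ifs
    · rw [mul_one]
      exact hV _ _ _
    · rw [mul_zero]
      exact Submodule.zero_mem _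

/-- the determinant of the square block -/
noncomputable def PD (w : Fin n → ℤ) (p : ℤ) (U : Fin k → Matrix (Fin n) (Fin n) ℂ) (s : Fin k) :
    MvPolynomial (Fin k × (Fin n × Fin n)) ℂ := (blk w p (PX U s)).det

lemma blk_eval (w : Fin n → ℤ) (p : ℤ) (U P : Fin k → Matrix (Fin n) (Fin n) ℂ) (s : Fin k) :
    ((MvPolynomial.aeval (ent P)).toRingHom.mapMatrix (blk w p (PX U s))) = blk w p ((U s)⁻¹ * P s) := by
  ext a b
  exact PX_eval U P s a.1 b.1

lemma PD_eval (w : Fin n → ℤ) (p : ℤ) (U P : Fin k → Matrix (Fin n) (Fin n) ℂ) (s : Fin k) :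
    MvPolynomial.aeval (ent P) (PD w p U s) = (blk w p ((U s)⁻¹ * P s)).det := by
  rw [← blk_eval, ← RingHom.map_det]
  rfl

lemma adj_eval (w : Fin n → ℤ) (p : ℤ) (U P : Fin k → Matrix (Fin n) (Fin n) ℂ) (s : Fin k) (a b : Ix w p) :
    MvPolynomial.aeval (ent P) ((blk w p (PX U s)).adjugate a b) = (blk w p ((U s)⁻¹ * P s)).adjugate a b := by
  rw [← blk_eval, ← RingHom.map_adjugate]
  rfl

open Classical in
/-- the polynomial with the value `Δ * (U⁻¹ N U) i j` -/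
noncomputable def T0 (w : Fin n → ℤ) (p : ℤ) (U : Fin k → Matrix (Fin n) (Fin n) ℂ) (q : Fin k × (Fin n × Fin n)) :
    MvPolynomial (Fin k × (Fin n × Fin n)) ℂ :=
  if h : w q.2.1 = p - 1 ∧ w q.2.2 = p then
    (∏ s ∈ Finset.univ.erase q.1, PD w p U s) *
      ∑ a : Ix w p, PX U q.1 q.2.1 a.1 * (blk w p (PX U q.1)).adjugate a ⟨q.2.2, h.2.ge⟩
  else 0

open Classical in
/-- the interesting entries of `U⁻¹ N U` -/
noncomputable def Lam (w : Fin n → ℤ) (p : ℤ) (U : Fin k → Matrix (Fin n) (Fin n) ℂ)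
    (b : Fin d → Fin k → Matrix (Fin n) (Fin n) ℂ) (y : Fin d → ℂ) (q : Fin k × (Fin n × Fin n)) : ℂ :=
  if w q.2.1 = p - 1 ∧ w q.2.2 = p then ((U q.1)⁻¹ * cmb b y q.1 * U q.1) q.2.1 q.2.2 else 0

lemma T0_eval {w : Fin n → ℤ} {p : ℤ} {U : Fin k → Matrix (Fin n) (Fin n) ℂ}
    {b : Fin d → Fin k → Matrix (Fin n) (Fin n) ℂ} (hU : ∀ s, IsUnit (U s).det)
    (hb : ∀ l s, Low w 1 ((U s)⁻¹ * b l s * U s)) {P : Fin k → Matrix (Fin n) (Fin n) ℂ} {y : Fin d → ℂ}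
    (hP : ∀ s, ∃ Y, cols w p (P s) * Y = cols w p (IsNilpotent.exp (cmb b y s) * U s)) (q : Fin k × (Fin n × Fin n)) :
    MvPolynomial.aeval (ent P) (T0 w p U q) =
      MvPolynomial.aeval (ent P) (∏ s, PD w p U s) * Lam w p U b y q := by
  classical
  unfold T0 Lam
  by_cases h : w q.2.1 = p - 1 ∧ w q.2.2 = p
  · rw [dif_pos h, if_pos h, map_mul, map_sum]
    obtain ⟨Y, hY⟩ := hP q.1
    obtain ⟨-, h2⟩ := chart (p := p) (hU q.1) (cmb_low hb y q.1) hY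
    have h3 := h2 q.2.1 ⟨q.2.2, h.2.ge⟩ h.1 h.2
    have h4 : ∑ a : Ix w p, MvPolynomial.aeval (ent P)
        (PX U q.1 q.2.1 a.1 * (blk w p (PX U q.1)).adjugate a ⟨q.2.2, h.2.ge⟩) =
        (blk w p ((U q.1)⁻¹ * P q.1)).det * ((U q.1)⁻¹ * cmb b y q.1 * U q.1) q.2.1 q.2.2 := by
      rw [← h3]
      refine Finset.sum_congr rfl fun a _ => ?_
      rw [map_mul, PX_eval, adj_eval]
    rw [h4, ← PD_eval, ← mul_assoc, ← map_mul, Finset.prod_erase_mul _ _ (Finset.mem_univ q.1)]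
  · rw [dif_neg h, if_neg h, map_zero, mul_zero]

lemma card_Ix (w : Fin n → ℤ) (p : ℤ) : Fintype.card (Ix w p) ≤ n := by
  have := Fintype.card_subtype_le (fun i : Fin n => p ≤ w i)
  simpa using this

lemma PD_dc {w : Fin n → ℤ} {p : ℤ} {U : Fin k → Matrix (Fin n) (Fin n) ℂ} {V : Submodule ℚ ℂ} (h1 : (1 : ℂ) ∈ V)
    (hV : ∀ s i j, (U s)⁻¹ i j ∈ V) (s : Fin k) : DC n (V ^ n) (PD w p U s) :=
  dc_lift h1 (dc_det h1 fun _ _ => PX_dc h1 hV s _ _) (card_Ix w p)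

lemma T0_dc {w : Fin n → ℤ} {p : ℤ} {U : Fin k → Matrix (Fin n) (Fin n) ℂ} {V : Submodule ℚ ℂ} (h1 : (1 : ℂ) ∈ V)
    (hV : ∀ s i j, (U s)⁻¹ i j ∈ V) (q : Fin k × (Fin n × Fin n)) :
    DC (n * k + 1) (V ^ (n * k + 1)) (T0 w p U q) := by
  classical
  unfold T0
  split_ifs with h
  · have h2 := dc_prod (V := V) (Finset.univ.erase q.1) (P := PD w p U) (e := fun _ => n) h1
      (fun s _ => PD_dc h1 hV s)
    have h3 : DC (1 + n) (V ^ (1 + n)) (∑ a : Ix w p, PX U q.1 q.2.1 a.1 *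
        (blk w p (PX U q.1)).adjugate a ⟨q.2.2, h.2.ge⟩) := by
      refine DC.sum _ fun a _ => ?_
      rw [pow_add, pow_one]
      exact (PX_dc h1 hV _ _ _).mul (dc_lift h1 (dc_adj h1 (fun _ _ => PX_dc h1 hV _ _ _) _ _) (card_Ix w p))
    have h4 := h2.mul h3
    rw [← pow_add] at h4
    refine dc_lift h1 h4 ?_
    rw [Finset.sum_const, Finset.card_erase_of_mem (Finset.mem_univ _), Finset.card_univ, Fintype.card_fin, smul_eq_mul]
    have hk : 0 < k := q.1.pos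
    obtain ⟨k', rfl⟩ : ∃ k', k = k' + 1 := ⟨k - 1, by omega⟩
    simp only [Nat.add_sub_cancel]
    ring_nf
    exact le_rfl
  · exact dc_zero

lemma cmb_add (b : Fin d → Fin k → Matrix (Fin n) (Fin n) ℂ) (y y' : Fin d → ℂ) (s : Fin k) :
    cmb b (y + y') s = cmb b y s + cmb b y' s := by
  unfold cmb
  rw [← Finset.sum_add_distrib]
  exact Finset.sum_congr rfl fun l _ => by rw [Pi.add_apply, add_smul]

lemma cmb_smul (b : Fin d → Fin k → Matrix (Fin n) (Fin n) ℂ) (c : ℂ) (y : Fin d → ℂ) (s : Fin k) :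
    cmb b (c • y) s = c • cmb b y s := by
  unfold cmb
  rw [Finset.smul_sum]
  exact Finset.sum_congr rfl fun l _ => by rw [Pi.smul_apply, smul_eq_mul, mul_smul]

/-- the linear map `Lam` -/
noncomputable def LamL (w : Fin n → ℤ) (p : ℤ) (U : Fin k → Matrix (Fin n) (Fin n) ℂ)
    (b : Fin d → Fin k → Matrix (Fin n) (Fin n) ℂ) : (Fin d → ℂ) →ₗ[ℂ] (Fin k × (Fin n × Fin n) → ℂ) where
  toFun := Lam w p U b
  map_add' := by
    intro y y'
    funext q
    rw [Pi.add_apply]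
    unfold Lam
    split_ifs
    · rw [cmb_add, Matrix.mul_add, Matrix.add_mul, Matrix.add_apply]
    · rw [add_zero]
  map_smul' := by
    intro c y
    funext q
    rw [RingHom.id_apply, Pi.smul_apply]
    unfold Lam
    split_ifs
    · rw [cmb_smul, Matrix.mul_smul, Matrix.smul_mul, Matrix.smul_apply]
    · rw [smul_zero]

/-- the coordinates are linear functions of the interesting entries -/
lemma exists_G (w : Fin n → ℤ) (p : ℤ) (U : Fin k → Matrix (Fin n) (Fin n) ℂ)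
    (b : Fin d → Fin k → Matrix (Fin n) (Fin n) ℂ)
    (hinj : ∀ y : Fin d → ℂ, (∀ s i j, w i = p - 1 → w j = p → ((U s)⁻¹ * cmb b y s * U s) i j = 0) → y = 0) :
    ∃ G : Fin d → (Fin k × (Fin n × Fin n)) → ℂ, ∀ (y : Fin d → ℂ) l, y l = ∑ q, Lam w p U b y q * G l q := by
  classical
  have hker : LinearMap.ker (LamL w p U b) = ⊥ := by
    rw [LinearMap.ker_eq_bot']
    intro y hy
    refine hinj y fun s i j hi hj => ?_
    have h1 : Lam w p U b y (s, (i, j)) = 0 := congrFun hy (s, (i, j))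
    unfold Lam at h1
    rw [if_pos ⟨hi, hj⟩] at h1
    exact h1
  obtain ⟨G, hG⟩ := LinearMap.exists_leftInverse_of_injective (LamL w p U b) hker
  refine ⟨fun l q => G (Pi.single q 1) l, fun y l => ?_⟩
  have h1 : G (Lam w p U b y) = y := LinearMap.congr_fun hG y
  have h2 : Lam w p U b y = ∑ q, Lam w p U b y q • (Pi.single q 1 : Fin k × (Fin n × Fin n) → ℂ) :=
    pi_eq_sum_univ' (Lam w p U b y)
  rw [h2, map_sum] at h1
  have h3 := congrFun h1 l
  rw [Finset.sum_apply] at h3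
  rw [← h3]
  refine Finset.sum_congr rfl fun q _ => ?_
  rw [map_smul, Pi.smul_apply, smul_eq_mul]

/-- the numerator of the coordinate -/
noncomputable def TT (w : Fin n → ℤ) (p : ℤ) (U : Fin k → Matrix (Fin n) (Fin n) ℂ)
    (G : Fin d → (Fin k × (Fin n × Fin n)) → ℂ) (l : Fin d) : MvPolynomial (Fin k × (Fin n × Fin n)) ℂ :=
  ∑ q, MvPolynomial.C (G l q) * T0 w p U q

/-- the denominator of the coordinates -/
noncomputable def DD (w : Fin n → ℤ) (p : ℤ) (U : Fin k → Matrix (Fin n) (Fin n) ℂ) :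
    MvPolynomial (Fin k × (Fin n × Fin n)) ℂ := ∏ s, PD w p U s

lemma DD_dc {w : Fin n → ℤ} {p : ℤ} {U : Fin k → Matrix (Fin n) (Fin n) ℂ} {V : Submodule ℚ ℂ} (h1 : (1 : ℂ) ∈ V)
    (hV : ∀ s i j, (U s)⁻¹ i j ∈ V) : DC (n * k + 2) (V ^ (n * k + 2)) (DD w p U) := by
  have h2 := dc_prod (V := V) Finset.univ (P := PD w p U) (e := fun _ => n) h1 (fun s _ => PD_dc h1 hV s)
  refine dc_lift h1 h2 ?_
  rw [Finset.sum_const, Finset.card_univ, Fintype.card_fin, smul_eq_mul, mul_comm k n]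
  exact Nat.le_add_right _ _

lemma TT_dc {w : Fin n → ℤ} {p : ℤ} {U : Fin k → Matrix (Fin n) (Fin n) ℂ} {V : Submodule ℚ ℂ} (h1 : (1 : ℂ) ∈ V)
    (hV : ∀ s i j, (U s)⁻¹ i j ∈ V) {G : Fin d → (Fin k × (Fin n × Fin n)) → ℂ} (hG : ∀ l q, G l q ∈ V) (l : Fin d) :
    DC (n * k + 2) (V ^ (n * k + 2)) (TT w p U G l) := by
  refine DC.sum _ fun q _ => ?_
  have h2 := (dc_const (σ := Fin k × (Fin n × Fin n)) (V := V) (hG l q)).mul (T0_dc (w := w) (p := p) h1 hV q)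
  rw [← pow_succ'] at h2
  exact h2.mono (by omega) le_rfl

lemma TT_eval {w : Fin n → ℤ} {p : ℤ} {U : Fin k → Matrix (Fin n) (Fin n) ℂ}
    {b : Fin d → Fin k → Matrix (Fin n) (Fin n) ℂ} (hU : ∀ s, IsUnit (U s).det)
    (hb : ∀ l s, Low w 1 ((U s)⁻¹ * b l s * U s)) {G : Fin d → (Fin k × (Fin n × Fin n)) → ℂ}
    (hG : ∀ (y : Fin d → ℂ) l, y l = ∑ q, Lam w p U b y q * G l q)
    {P : Fin k → Matrix (Fin n) (Fin n) ℂ} {y : Fin d → ℂ}
    (hP : ∀ s, ∃ Y, cols w p (P s) * Y = cols w p (IsNilpotent.exp (cmb b y s) * U s)) (l : Fin d) :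
    MvPolynomial.aeval (ent P) (TT w p U G l) = MvPolynomial.aeval (ent P) (DD w p U) * y l := by
  unfold TT
  rw [map_sum, hG y l, Finset.mul_sum]
  refine Finset.sum_congr rfl fun q _ => ?_
  rw [map_mul, MvPolynomial.aeval_C, T0_eval hU hb hP]
  show G l q * _ = _
  unfold DD
  ring

lemma DD_ne {w : Fin n → ℤ} {p : ℤ} {U : Fin k → Matrix (Fin n) (Fin n) ℂ}
    {b : Fin d → Fin k → Matrix (Fin n) (Fin n) ℂ} (hU : ∀ s, IsUnit (U s).det)
    (hb : ∀ l s, Low w 1 ((U s)⁻¹ * b l s * U s)) {P : Fin k → Matrix (Fin n) (Fin n) ℂ} {y : Fin d → ℂ}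
    (hP : ∀ s, ∃ Y, cols w p (P s) * Y = cols w p (IsNilpotent.exp (cmb b y s) * U s)) :
    MvPolynomial.aeval (ent P) (DD w p U) ≠ 0 := by
  unfold DD
  rw [map_prod, Finset.prod_ne_zero_iff]
  intro s _
  obtain ⟨Y, hY⟩ := hP s
  rw [PD_eval]
  exact (chart (p := p) (hU s) (cmb_low hb y s) hY).1

/-- the coefficients -/
noncomputable def V0 (U : Fin k → Matrix (Fin n) (Fin n) ℂ) (G : Fin d → (Fin k × (Fin n × Fin n)) → ℂ) :
    Submodule ℚ ℂ :=
  sp (fun t : (Fin k × (Fin n × Fin n)) ⊕ (Fin d × (Fin k × (Fin n × Fin n))) =>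
    Sum.elim (fun q => (U q.1)⁻¹ q.2.1 q.2.2) (fun r => G r.1 r.2) t)

lemma V0_one (U : Fin k → Matrix (Fin n) (Fin n) ℂ) (G : Fin d → (Fin k × (Fin n × Fin n)) → ℂ) :
    (1 : ℂ) ∈ V0 U G := by
  unfold V0
  exact sp_one _

lemma V0_U (U : Fin k → Matrix (Fin n) (Fin n) ℂ) (G : Fin d → (Fin k × (Fin n × Fin n)) → ℂ) (s : Fin k)
    (i j : Fin n) : (U s)⁻¹ i j ∈ V0 U G := by
  unfold V0
  exact Submodule.subset_span ⟨some (Sum.inl (s, (i, j))), rfl⟩

lemma V0_G (U : Fin k → Matrix (Fin n) (Fin n) ℂ) (G : Fin d → (Fin k × (Fin n × Fin n)) → ℂ) (l : Fin d)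
    (q : Fin k × (Fin n × Fin n)) : G l q ∈ V0 U G := by
  unfold V0
  exact Submodule.subset_span ⟨some (Sum.inr (l, q)), rfl⟩

/-- the bound for the dimension of the space of the coefficients -/
def bd (n k d m : ℕ) : ℕ := ((k * (n * n) + d * (k * (n * n)) + 1) ^ (n * k + 2)) ^ m

lemma V0_fin (U : Fin k → Matrix (Fin n) (Fin n) ℂ) (G : Fin d → (Fin k × (Fin n × Fin n)) → ℂ) (m : ℕ) :
    Module.Finite ℚ ((V0 U G ^ (n * k + 2)) ^ m : Submodule ℚ ℂ) ∧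
      Module.finrank ℚ ((V0 U G ^ (n * k + 2)) ^ m : Submodule ℚ ℂ) ≤ bd n k d m := by
  obtain ⟨hVf, hVr⟩ := sp_fin (fun t : (Fin k × (Fin n × Fin n)) ⊕ (Fin d × (Fin k × (Fin n × Fin n))) =>
    Sum.elim (fun q => (U q.1)⁻¹ q.2.1 q.2.2) (fun r => G r.1 r.2) t)
  have hf : Module.Finite ℚ (V0 U G) := hVf
  have hr : Module.finrank ℚ (V0 U G) ≤ k * (n * n) + d * (k * (n * n)) + 1 := by
    refine hVr.trans (le_of_eq ?_)
    simp [Fintype.card_sum, Fintype.card_prod]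
  obtain ⟨hp1, hp2⟩ := finrank_pow_le (V0 U G) (n * k + 2)
  obtain ⟨hp3, hp4⟩ := finrank_pow_le (V0 U G ^ (n * k + 2)) m
  refine ⟨hp3, hp4.trans ?_⟩
  unfold bd
  exact Nat.pow_le_pow_left (hp2.trans (Nat.pow_le_pow_left hr _)) _

/-- **The main point.** If the relations between the entries of the matrices `P` propagate along the group then the
Harish-Chandra coordinates satisfy no relation with integral coefficients. -/
theorem core (w : Fin n → ℤ) (p : ℤ) (U : Fin k → Matrix (Fin n) (Fin n) ℂ)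
    (b : Fin d → Fin k → Matrix (Fin n) (Fin n) ℂ) (hU : ∀ s, IsUnit (U s).det)
    (hb : ∀ l s, Low w 1 ((U s)⁻¹ * b l s * U s))
    (hinj : ∀ y : Fin d → ℂ, (∀ s i j, w i = p - 1 → w j = p → ((U s)⁻¹ * cmb b y s * U s) i j = 0) → y = 0)
    (m : ℕ) :
    ∃ V : Submodule ℚ ℂ, Module.Finite ℚ V ∧ Module.finrank ℚ V ≤ bd n k d m ∧
      ∀ (P : Fin k → Matrix (Fin n) (Fin n) ℂ) (y : Fin d → ℂ),
        (∀ s, ∃ Y, cols w p (P s) * Y = cols w p (IsNilpotent.exp (cmb b y s) * U s)) →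
        (∀ R : MvPolynomial (Fin k × (Fin n × Fin n)) ℂ, R.totalDegree ≤ (n * k + 2) * m → (∀ s, R.coeff s ∈ V) →
          MvPolynomial.aeval (ent P) R = 0 → ∀ y' : Fin d → ℂ, MvPolynomial.aeval
            (ent fun s => IsNilpotent.exp (cmb b y' s) * IsNilpotent.exp (-cmb b y s) * P s) R = 0) →
        ∀ M : MvPolynomial (Fin d) ℤ, M ≠ 0 → M.totalDegree ≤ m → MvPolynomial.aeval y M ≠ 0 := by
  classical
  obtain ⟨G, hG⟩ := exists_G w p U b hinj
  have hV1 := V0_one U G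
  have hVU := V0_U U G
  have hVG := V0_G U G
  obtain ⟨hf, hr⟩ := V0_fin U G m
  refine ⟨_, hf, hr, fun P y hP hprop M hM0 hMd hy => ?_⟩
  obtain ⟨R, hR, hRe⟩ := homog (DD w p U) (TT w p U G) (DD_dc hV1 hVU) (TT_dc hV1 hVU hVG) M hMd
  have h0 : MvPolynomial.aeval (ent P) R = 0 := by
    rw [hRe (ent P) y (TT_eval hU hb hG hP), hy, mul_zero]
  have h1 := hprop R hR.1 hR.2 h0
  have h2 : ∀ y' : Fin d → ℂ, MvPolynomial.aeval y' M = 0 := by
    intro y'
    have hP' : ∀ s, ∃ Y, cols w p ((fun s => IsNilpotent.exp (cmb b y' s) * IsNilpotent.exp (-cmb b y s) * P s) s) * Y =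
        cols w p (IsNilpotent.exp (cmb b y' s) * U s) := by
      intro s
      obtain ⟨Y, hY⟩ := hP s
      exact ⟨Y, move (hU s) (cmb_low hb y s) hY⟩
    have h3 := h1 y'
    rw [hRe _ y' (TT_eval hU hb hG hP')] at h3
    exact (mul_eq_zero.1 h3).resolve_left (pow_ne_zero _ (DD_ne hU hb hP'))
  apply hM0
  have hintc : Function.Injective (Int.castRingHom ℂ) := by exact Int.cast_injective
  refine MvPolynomial.map_injective _ hintc ?_
  rw [map_zero]
  refine MvPolynomial.funext fun y' => ?_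
  have h4 := h2 y'
  rw [Pool.Agent.Y118.HP.aeval_int_map, MvPolynomial.aeval_eq_eval] at h4
  rw [map_zero]
  exact h4

end Pool.Agent.H61HS
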