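import Pool.Agent.Results.MP_f11a48_ag.GeneralFamilies
import Pool.Agent.H61HS.Rel

/-!
# Functional relations and the differential Galois group
-/

set_option autoImplicit false

open PowerSeries Finset.HasAntidiagonal

namespace Pool.Agent.H61HS

open Pool.Agent.Results.MP_f11a48_ag.GeneralFamilies (period Functional GCond)

/-- `f` converges absolutely at `z`, with the value `v` -/
def Ev (z : ℂ) (f : ℂ⟦X⟧) (v : ℂ) : Prop :=
  Summable (fun m => ‖coeff m f * z ^ m‖) ∧ HasSum (fun m => coeff m f * z ^ m) v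

lemma Ev.unique {z : ℂ} {f : ℂ⟦X⟧} {v v' : ℂ} (h : Ev z f v) (h' : Ev z f v') : v = v' := h.2.unique h'.2

lemma Ev.C (z a : ℂ) : Ev z (PowerSeries.C a) a := by
  have h1 : ∀ m : ℕ, m ≠ 0 → coeff m (PowerSeries.C a) * z ^ m = 0 := by
    intro m hm
    rw [coeff_C, if_neg hm, zero_mul]
  have h2 : HasSum (fun m => coeff m (PowerSeries.C a) * z ^ m) (coeff 0 (PowerSeries.C a) * z ^ 0) :=
    hasSum_single 0 h1
  have h3 : HasSum (fun m => ‖coeff m (PowerSeries.C a) * z ^ m‖) ‖coeff 0 (PowerSeries.C a) * z ^ 0‖ :=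
    hasSum_single 0 fun m hm => by rw [h1 m hm, norm_zero]
  refine ⟨h3.summable, ?_⟩
  rw [coeff_zero_C, pow_zero, mul_one] at h2
  exact h2

lemma Ev.X (z : ℂ) : Ev z (PowerSeries.X) z := by
  have h1 : ∀ m : ℕ, m ≠ 1 → coeff m (PowerSeries.X : ℂ⟦X⟧) * z ^ m = 0 := by
    intro m hm
    rw [coeff_X, if_neg hm, zero_mul]
  have h2 : HasSum (fun m => coeff m (PowerSeries.X : ℂ⟦X⟧) * z ^ m) (coeff 1 (PowerSeries.X : ℂ⟦X⟧) * z ^ 1) :=
    hasSum_single 1 h1
  have h3 : HasSum (fun m => ‖coeff m (PowerSeries.X : ℂ⟦X⟧) * z ^ m‖) ‖coeff 1 (PowerSeries.X : ℂ⟦X⟧) * z ^ 1‖ :=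
    hasSum_single 1 fun m hm => by rw [h1 m hm, norm_zero]
  refine ⟨h3.summable, ?_⟩
  rw [coeff_one_X, pow_one, one_mul] at h2
  exact h2

lemma Ev.add {z : ℂ} {f g : ℂ⟦X⟧} {v u : ℂ} (h : Ev z f v) (h' : Ev z g u) : Ev z (f + g) (v + u) := by
  refine ⟨?_, ?_⟩
  · refine Summable.of_nonneg_of_le (fun m => norm_nonneg _) (fun m => ?_) (h.1.add h'.1)
    rw [map_add, add_mul]
    exact norm_add_le _ _
  · have := h.2.add h'.2
    simpa only [map_add, add_mul] using this

lemma Ev.mul {z : ℂ} {f g : ℂ⟦X⟧} {v u : ℂ} (h : Ev z f v) (h' : Ev z g u) : Ev z (f * g) (v * u) := by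
  have h1 : ∀ m, ∑ kl ∈ antidiagonal m, (coeff kl.1 f * z ^ kl.1) * (coeff kl.2 g * z ^ kl.2) =
      coeff m (f * g) * z ^ m := by
    intro m
    rw [coeff_mul, Finset.sum_mul]
    refine Finset.sum_congr rfl fun kl hkl => ?_
    rw [← Finset.HasAntidiagonal.mem_antidiagonal.1 hkl, pow_add]
    ring
  have h2 := summable_norm_sum_mul_antidiagonal_of_summable_norm h.1 h'.1
  have h3 := tsum_mul_tsum_eq_tsum_sum_antidiagonal_of_summable_norm h.1 h'.1
  simp only [h1] at h2 h3
  refine ⟨h2, ?_⟩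
  rw [h.2.tsum_eq, h'.2.tsum_eq] at h3
  rw [h3]
  exact h2.of_norm.hasSum

lemma Ev.sum {ι : Type} (s : Finset ι) {z : ℂ} {f : ι → ℂ⟦X⟧} {v : ι → ℂ} (h : ∀ i ∈ s, Ev z (f i) (v i)) :
    Ev z (∑ i ∈ s, f i) (∑ i ∈ s, v i) := by
  classical
  induction s using Finset.induction_on with
  | empty =>
    rw [Finset.sum_empty, Finset.sum_empty]
    have := Ev.C z 0
    rwa [map_zero] at this
  | insert a s ha ih =>
    rw [Finset.sum_insert ha, Finset.sum_insert ha]
    exact (h a (Finset.mem_insert_self a s)).add (ih fun i hi => h i (Finset.mem_insert_of_mem hi))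

/-- polynomials -/
lemma Ev.aeval {σ : Type} {z : ℂ} {f : σ → ℂ⟦X⟧} {v : σ → ℂ} (h : ∀ i, Ev z (f i) (v i)) (F : MvPolynomial σ ℂ) :
    Ev z (MvPolynomial.aeval f F) (MvPolynomial.aeval v F) := by
  induction F using MvPolynomial.induction_on with
  | C a =>
    rw [MvPolynomial.aeval_C, MvPolynomial.aeval_C]
    exact Ev.C z a
  | add p q hp hq => rw [map_add, map_add]; exact hp.add hq
  | mul_X p i hp =>
    rw [map_mul, map_mul, MvPolynomial.aeval_X, MvPolynomial.aeval_X]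
    exact hp.mul (h i)

/-- a power series which vanishes near infinity is zero -/
lemma zero_of_Ev {f : ℂ⟦X⟧} {x₀ : ℝ} (h : ∀ x : ℝ, x₀ < x → Ev ((1 / x : ℝ) : ℂ) f 0) : f = 0 := by
  ext N
  rw [map_zero]
  induction N using Nat.strong_induction_on with
  | _ N ih =>
    by_contra hN
    set x₁ : ℝ := max x₀ 0 + 1 with hx₁
    have hx₁0 : 0 < x₁ := by
      have := le_max_right x₀ 0
      linarith
    have hx₀1 : x₀ < x₁ := by
      have := le_max_left x₀ 0
      linarith
    have hsum := (h x₁ hx₀1).1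
    set K : ℝ := ∑' m, ‖coeff m f * ((1 / x₁ : ℝ) : ℂ) ^ m‖ with hK
    have hK0 : 0 ≤ K := tsum_nonneg fun m => norm_nonneg _
    have hpos : 0 < ‖coeff N f‖ := norm_pos_iff.2 hN
    set x : ℝ := max x₁ (x₁ ^ (N + 1) * K / ‖coeff N f‖ + 1) with hx
    have hxx₁ : x₁ ≤ x := le_max_left _ _
    have hx0 : 0 < x := lt_of_lt_of_le hx₁0 hxx₁
    have h1 := ((h x (lt_of_lt_of_le hx₀1 hxx₁)).2).update N 0
    rw [add_zero, zero_sub] at h1
    have h2 : ∀ m, ‖Function.update (fun m => coeff m f * ((1 / x : ℝ) : ℂ) ^ m) N 0 m‖ ≤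
        (x₁ / x) ^ (N + 1) * ‖coeff m f * ((1 / x₁ : ℝ) : ℂ) ^ m‖ := by
      intro m
      rcases lt_trichotomy m N with hm | hm | hm
      · rw [Function.update_of_ne hm.ne, ih m hm, zero_mul, zero_mul, norm_zero, mul_zero]
      · rw [hm, Function.update_self, norm_zero]
        positivity
      · rw [Function.update_of_ne hm.ne', norm_mul, norm_mul, norm_pow, norm_pow, Complex.norm_real, Complex.norm_real,
          Real.norm_of_nonneg (by positivity), Real.norm_of_nonneg (by positivity)]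
        have h3 : (1 / x) ^ m = (1 / x₁) ^ m * (x₁ / x) ^ m := by
          rw [← mul_pow]
          congr 1
          field_simp
        have h4 : (x₁ / x) ^ m ≤ (x₁ / x) ^ (N + 1) :=
          pow_le_pow_of_le_one (by positivity) ((div_le_one hx0).2 hxx₁) hm
        rw [h3]
        calc ‖coeff m f‖ * ((1 / x₁) ^ m * (x₁ / x) ^ m) ≤ ‖coeff m f‖ * ((1 / x₁) ^ m * (x₁ / x) ^ (N + 1)) := by
              gcongr
          _ = (x₁ / x) ^ (N + 1) * (‖coeff m f‖ * (1 / x₁) ^ m) := by ring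
    have h5 := tsum_of_norm_bounded (hsum.hasSum.mul_left ((x₁ / x) ^ (N + 1))) h2
    rw [h1.tsum_eq, norm_neg, norm_mul, norm_pow, Complex.norm_real, Real.norm_of_nonneg (by positivity), ← hK] at h5
    have h6 : ‖coeff N f‖ * x ≤ x₁ ^ (N + 1) * K := by
      have h7 : 0 < x ^ (N + 1) := by positivity
      have h8 := mul_le_mul_of_nonneg_right h5 h7.le
      calc ‖coeff N f‖ * x = ‖coeff N f‖ * (1 / x) ^ N * x ^ (N + 1) := by
            rw [pow_succ, one_div, inv_pow]
            field_simp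
        _ ≤ (x₁ / x) ^ (N + 1) * K * x ^ (N + 1) := h8
        _ = x₁ ^ (N + 1) * K := by
            rw [div_pow]
            field_simp
    have h9 : x₁ ^ (N + 1) * K / ‖coeff N f‖ + 1 ≤ x := le_max_right _ _
    have h10 : x₁ ^ (N + 1) * K < ‖coeff N f‖ * x := by
      have h11 : x₁ ^ (N + 1) * K / ‖coeff N f‖ < x := by linarith
      have h12 := (div_lt_iff₀ hpos).1 h11
      linarith
    linarith

variable {n : ℕ}

/-- the fundamental matrix `Ω Z` -/
noncomputable def fund (Ω : Matrix (Fin n) (Fin n) ℂ) (Z : Matrix (Fin n) (Fin n) ℚ⟦X⟧) : Matrix (Fin n) (Fin n) ℂ⟦X⟧ :=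
  Ω.map PowerSeries.C * Z.map (PowerSeries.map (algebraMap ℚ ℂ))

/-- the differential Galois group: all polynomial relations between `z` and the entries of `Y` hold for `g Y` -/
def Galois (Y : Matrix (Fin n) (Fin n) ℂ⟦X⟧) : Set (Matrix (Fin n) (Fin n) ℂ) :=
  {g | ∀ F : MvPolynomial (Option (Fin n × Fin n)) ℂ,
    MvPolynomial.aeval (fun o : Option (Fin n × Fin n) => o.elim PowerSeries.X fun q => Y q.1 q.2) F = 0 →
    MvPolynomial.aeval (fun o : Option (Fin n × Fin n) => o.elim PowerSeries.X fun q =>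
      (g.map PowerSeries.C * Y) q.1 q.2) F = 0}

/-- the transformed period matrix -/
noncomputable def gper (g Ω : Matrix (Fin n) (Fin n) ℂ) (Z : Matrix (Fin n) (Fin n) ℚ⟦X⟧) (x : ℝ) (q : Fin n × Fin n) :
    ℂ := ∑ a, g q.1 a * period Ω Z x (a, q.2)

lemma Ev_fund {Ω : Matrix (Fin n) (Fin n) ℂ} {Z : Matrix (Fin n) (Fin n) ℚ⟦X⟧} {C : ℝ} (hC : 1 ≤ C)
    (hZ : ∀ i j m, |((coeff m (Z i j) : ℚ) : ℝ)| ≤ C ^ (m + 1)) {x : ℝ} (hx : C < x) (i j : Fin n) :
    Ev ((1 / x : ℝ) : ℂ) (fund Ω Z i j) (period Ω Z x (i, j)) := by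
  have hx0 : 0 < x := by linarith
  have h1 : ∀ a, Ev ((1 / x : ℝ) : ℂ) (PowerSeries.map (algebraMap ℚ ℂ) (Z a j))
      ((∑' m : ℕ, ((coeff m (Z a j) : ℚ) : ℝ) * (1 / x) ^ m : ℝ) : ℂ) := by
    intro a
    have h2 : ∀ m, coeff m (PowerSeries.map (algebraMap ℚ ℂ) (Z a j)) * ((1 / x : ℝ) : ℂ) ^ m =
        ((((coeff m (Z a j) : ℚ) : ℝ) * (1 / x) ^ m : ℝ) : ℂ) := by
      intro m
      rw [PowerSeries.coeff_map]
      push_cast
      rfl
    have h3 : Summable fun m : ℕ => ‖((coeff m (Z a j) : ℚ) : ℝ) * (1 / x) ^ m‖ := by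
      have h4 : Summable fun m : ℕ => C * (C / x) ^ m :=
        (summable_geometric_of_lt_one (by positivity) ((div_lt_one hx0).2 hx)).mul_left C
      refine Summable.of_nonneg_of_le (fun m => norm_nonneg _) (fun m => ?_) h4
      rw [norm_mul, Real.norm_eq_abs, Real.norm_of_nonneg (by positivity : (0 : ℝ) ≤ (1 / x) ^ m)]
      calc |((coeff m (Z a j) : ℚ) : ℝ)| * (1 / x) ^ m ≤ C ^ (m + 1) * (1 / x) ^ m :=
            mul_le_mul_of_nonneg_right (hZ a j m) (by positivity)
        _ = C * (C / x) ^ m := by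
            rw [pow_succ, div_pow, div_pow, one_pow]
            ring
    unfold Ev
    simp only [h2, Complex.norm_real]
    refine ⟨h3, ?_⟩
    exact Complex.hasSum_ofReal.2 h3.of_norm.hasSum
  unfold fund period
  rw [Matrix.mul_apply]
  refine Ev.sum _ fun a _ => ?_
  exact (Ev.C _ _).mul (h1 a)

/-- one variable -/
lemma prop_one {Ω : Matrix (Fin n) (Fin n) ℂ} {Z : Matrix (Fin n) (Fin n) ℚ⟦X⟧} {C : ℝ} (hC : 1 ≤ C)
    (hZ : ∀ i j m, |((coeff m (Z i j) : ℚ) : ℝ)| ≤ C ^ (m + 1)) {g : Matrix (Fin n) (Fin n) ℂ}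
    (hg : g ∈ Galois (fund Ω Z)) (F : MvPolynomial (Option (Fin n × Fin n)) ℂ)
    (hF : ∀ x : ℝ, C < x → MvPolynomial.aeval
      (fun o : Option (Fin n × Fin n) => o.elim ((1 / x : ℝ) : ℂ) (period Ω Z x)) F = 0) {x : ℝ} (hx : C < x) :
    MvPolynomial.aeval (fun o : Option (Fin n × Fin n) => o.elim ((1 / x : ℝ) : ℂ) (gper g Ω Z x)) F = 0 := by
  have h1 : MvPolynomial.aeval (fun o : Option (Fin n × Fin n) => o.elim PowerSeries.X fun q =>
      fund Ω Z q.1 q.2) F = 0 := by
    refine zero_of_Ev (x₀ := C) fun x hx => ?_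
    rw [← hF x hx]
    refine Ev.aeval (fun o => ?_) F
    rcases o with _ | q
    · exact Ev.X _
    · exact Ev_fund hC hZ hx q.1 q.2
  have h2 := hg F h1
  have h3 : Ev ((1 / x : ℝ) : ℂ) (MvPolynomial.aeval (fun o : Option (Fin n × Fin n) => o.elim PowerSeries.X fun q =>
      (g.map PowerSeries.C * fund Ω Z) q.1 q.2) F)
      (MvPolynomial.aeval (fun o : Option (Fin n × Fin n) => o.elim ((1 / x : ℝ) : ℂ) (gper g Ω Z x)) F) := by
    refine Ev.aeval (fun o => ?_) F
    rcases o with _ | q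
    · exact Ev.X _
    · show Ev _ ((g.map PowerSeries.C * fund Ω Z) q.1 q.2) (gper g Ω Z x q)
      unfold gper
      rw [Matrix.mul_apply]
      exact Ev.sum _ fun a _ => (Ev.C _ _).mul (Ev_fund hC hZ hx a q.2)
  rw [h2] at h3
  have h4 := Ev.C ((1 / x : ℝ) : ℂ) 0
  rw [map_zero] at h4
  exact h3.unique h4

open Classical in
/-- several variables -/
lemma prop_many {k : ℕ} {Ω : Matrix (Fin n) (Fin n) ℂ} {Z : Matrix (Fin n) (Fin n) ℚ⟦X⟧} {C : ℝ} (hC : 1 ≤ C)
    (hZ : ∀ i j m, |((coeff m (Z i j) : ℚ) : ℝ)| ≤ C ^ (m + 1)) (g : Fin k → Matrix (Fin n) (Fin n) ℂ)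
    (hg : ∀ l, g l ∈ Galois (fund Ω Z)) (F : MvPolynomial (Fin k ⊕ (Fin k × (Fin n × Fin n))) ℂ)
    (hF : ∀ x : Fin k → ℝ, (∀ l, C < x l) → MvPolynomial.aeval
        (Sum.elim (fun l => ((1 / x l : ℝ) : ℂ)) (fun q : Fin k × (Fin n × Fin n) => period Ω Z (x q.1) q.2)) F = 0)
    (t : Finset (Fin k)) :
    ∀ x : Fin k → ℝ, (∀ l, C < x l) → MvPolynomial.aeval
        (Sum.elim (fun l => ((1 / x l : ℝ) : ℂ)) (fun q : Fin k × (Fin n × Fin n) =>
          if q.1 ∈ t then gper (g q.1) Ω Z (x q.1) q.2 else period Ω Z (x q.1) q.2)) F = 0 := by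
  induction t using Finset.induction_on with
  | empty =>
    intro x hx
    simpa using hF x hx
  | insert a t ha ih =>
    intro x hx
    set Φ : Fin k ⊕ (Fin k × (Fin n × Fin n)) → MvPolynomial (Option (Fin n × Fin n)) ℂ :=
      Sum.elim (fun l => if l = a then MvPolynomial.X none else MvPolynomial.C ((1 / x l : ℝ) : ℂ))
        (fun q => if q.1 = a then MvPolynomial.X (some q.2) else MvPolynomial.C
          (if q.1 ∈ t then gper (g q.1) Ω Z (x q.1) q.2 else period Ω Z (x q.1) q.2)) with hΦ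
    have hev : ∀ (y : ℝ) (v : Fin n × Fin n → ℂ), MvPolynomial.aeval
        (fun o : Option (Fin n × Fin n) => o.elim ((1 / y : ℝ) : ℂ) v) (MvPolynomial.aeval Φ F) =
        MvPolynomial.aeval (Sum.elim (fun l => ((1 / (Function.update x a y) l : ℝ) : ℂ))
          (fun q : Fin k × (Fin n × Fin n) => if q.1 = a then v q.2 else
            (if q.1 ∈ t then gper (g q.1) Ω Z (x q.1) q.2 else period Ω Z (x q.1) q.2))) F := by
      intro y v
      rw [MvPolynomial.comp_aeval_apply]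
      congr 1
      congr 1
      funext i
      rcases i with l | q
      · simp only [hΦ, Sum.elim_inl]
        by_cases hl : l = a
        · subst hl
          rw [if_pos rfl, MvPolynomial.aeval_X, Function.update_self]
          rfl
        · rw [if_neg hl, MvPolynomial.aeval_C, Function.update_of_ne hl]
          rfl
      · simp only [hΦ, Sum.elim_inr]
        by_cases hl : q.1 = a
        · rw [if_pos hl, if_pos hl, MvPolynomial.aeval_X]
          rfl
        · rw [if_neg hl, if_neg hl, MvPolynomial.aeval_C]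
          rfl
    have h1 := prop_one hC hZ (hg a) (MvPolynomial.aeval Φ F) (fun y hy => by
      rw [hev]
      rw [← ih (Function.update x a y) (fun l => by
        by_cases hl : l = a
        · subst hl
          rw [Function.update_self]
          exact hy
        · rw [Function.update_of_ne hl]
          exact hx l)]
      congr 1
      congr 1
      funext i
      rcases i with l | q
      · rfl
      · simp only [Sum.elim_inr]
        by_cases hl : q.1 = a
        · rw [if_pos hl, hl, if_neg ha, Function.update_self]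
        · rw [if_neg hl, Function.update_of_ne hl]) (hx a)
    rw [hev, Function.update_eq_self] at h1
    rw [← h1]
    congr 1
    congr 1
    funext i
    rcases i with l | q
    · rfl
    · simp only [Sum.elim_inr]
      by_cases hl : q.1 = a
      · rw [if_pos hl, if_pos (by rw [hl]; exact Finset.mem_insert_self a t), hl]
      · rw [if_neg hl]
        simp only [Finset.mem_insert, hl, false_or]

end Pool.Agent.H61HS
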