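import Pool.Agent.Y118.HG.Kfin
import Pool.Agent.N208.HA.Dec
import Pool.Agent.H61HS.Fam

/-!
# Hyperelliptic families
-/

set_option autoImplicit false

open Matrix Polynomial

namespace Pool.Agent.H61HS

open Pool.Agent.N208.HA

variable {g : ℕ}

/-- the two halves of the indices -/
def hv (g : ℕ) : Fin (2 * g) ≃ Fin g ⊕ Fin g := (finSumFinEquiv.trans (finCongr (two_mul g).symm)).symm

/-- the grading -/
def wt (g : ℕ) (i : Fin (2 * g)) : ℤ := Sum.elim (fun _ => 1) (fun _ => 0) (hv g i)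

lemma hv_symm_inl (a : Fin g) : (((hv g).symm (Sum.inl a) : Fin (2 * g)) : ℕ) = a := by
  simp [hv]

/-- the frame -/
def fr (W V : Matrix (Fin (2 * g)) (Fin g) ℂ) : Matrix (Fin (2 * g)) (Fin (2 * g)) ℂ :=
  (Matrix.fromCols W V).submatrix id (hv g)

lemma fr_inv {W V : Matrix (Fin (2 * g)) (Fin g) ℂ} {R S : Matrix (Fin g) (Fin (2 * g)) ℂ} (h : Dec W V R S) :
    fr W V * (Matrix.fromRows R S).submatrix (hv g) id = 1 := by
  unfold fr
  rw [Matrix.submatrix_mul_equiv, Matrix.fromCols_mul_fromRows, h.sum]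
  rfl

lemma fr_det {W V : Matrix (Fin (2 * g)) (Fin g) ℂ} {R S : Matrix (Fin g) (Fin (2 * g)) ℂ} (h : Dec W V R S) :
    IsUnit (fr W V).det := by
  have h1 := congrArg Matrix.det (fr_inv h)
  rw [Matrix.det_mul, Matrix.det_one] at h1
  exact IsUnit.of_mul_eq_one _ h1

/-- the conjugate of a tangent vector is a block matrix -/
lemma fr_conj {W V : Matrix (Fin (2 * g)) (Fin g) ℂ} {R S : Matrix (Fin g) (Fin (2 * g)) ℂ} (h : Dec W V R S)
    {N : Matrix (Fin (2 * g)) (Fin (2 * g)) ℂ} (hk : N * V = 0) {C : Matrix (Fin g) (Fin g) ℂ} (hC : N * W = V * C) :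
    (fr W V)⁻¹ * N * fr W V = (Matrix.fromBlocks 0 0 C 0).submatrix (hv g) (hv g) := by
  have h1 : N * fr W V = fr W V * (Matrix.fromBlocks 0 0 C 0).submatrix (hv g) (hv g) := by
    unfold fr
    rw [Matrix.submatrix_mul_equiv, Matrix.fromCols_mul_fromBlocks]
    have h2 : N * (Matrix.fromCols W V).submatrix id (hv g) = (N * Matrix.fromCols W V).submatrix id (hv g) := rfl
    rw [h2, Matrix.mul_fromCols, hk, hC]
    simp
  rw [Matrix.mul_assoc, h1, ← Matrix.mul_assoc, Matrix.nonsing_inv_mul _ (fr_det h), Matrix.one_mul]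

lemma fr_low {W V : Matrix (Fin (2 * g)) (Fin g) ℂ} {R S : Matrix (Fin g) (Fin (2 * g)) ℂ} (h : Dec W V R S)
    {N : Matrix (Fin (2 * g)) (Fin (2 * g)) ℂ} (hk : N * V = 0) (hm : ∃ C : Matrix (Fin g) (Fin g) ℂ, N * W = V * C) :
    Low (wt g) 1 ((fr W V)⁻¹ * N * fr W V) := by
  obtain ⟨C, hC⟩ := hm
  intro i j hij
  rw [fr_conj h hk hC, Matrix.submatrix_apply] at hij
  unfold wt
  rcases hi : hv g i with a | a <;> rcases hj : hv g j with c | c <;> rw [hi, hj] at hij <;> simp at hij ⊢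

lemma fr_faithful {W V : Matrix (Fin (2 * g)) (Fin g) ℂ} {R S : Matrix (Fin g) (Fin (2 * g)) ℂ} (h : Dec W V R S)
    {N : Matrix (Fin (2 * g)) (Fin (2 * g)) ℂ} (hk : N * V = 0) (hm : ∃ C : Matrix (Fin g) (Fin g) ℂ, N * W = V * C)
    (h0 : ∀ i j, wt g i = 1 - 1 → wt g j = 1 → ((fr W V)⁻¹ * N * fr W V) i j = 0) : N = 0 := by
  obtain ⟨C, hC⟩ := hm
  have h1 : C = 0 := by
    ext a c
    have h2 := h0 ((hv g).symm (Sum.inr a)) ((hv g).symm (Sum.inl c)) (by simp [wt]) (by simp [wt])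
    rw [fr_conj h hk hC, Matrix.submatrix_apply] at h2
    simpa using h2
  calc N = N * (W * R + V * S) := by rw [h.sum, Matrix.mul_one]
    _ = N * W * R + N * V * S := by rw [Matrix.mul_add, Matrix.mul_assoc, Matrix.mul_assoc]
    _ = 0 := by rw [hk, hC, h1]; simp

/-- the columns of the first half -/
def half (P : Matrix (Fin (2 * g)) (Fin (2 * g)) ℂ) : Matrix (Fin (2 * g)) (Fin g) ℂ :=
  P.submatrix id fun j => ⟨j, by omega⟩

lemma half_eq (P : Matrix (Fin (2 * g)) (Fin (2 * g)) ℂ) :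
    half P = P.submatrix id fun j => (hv g).symm (Sum.inl j) := by
  have h1 : (fun j : Fin g => (⟨j, by omega⟩ : Fin (2 * g))) = fun j => (hv g).symm (Sum.inl j) :=
    funext fun j => Fin.ext (hv_symm_inl j).symm
  unfold half
  rw [h1]

/-- the indices in the first half -/
def ixe (g : ℕ) : Ix (wt g) 1 ≃ Fin g where
  toFun i := Sum.elim id (fun a => a) (hv g i.1)
  invFun a := ⟨(hv g).symm (Sum.inl a), by simp [wt]⟩
  left_inv := by
    rintro ⟨i, hi⟩
    apply Subtype.ext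
    simp only
    unfold wt at hi
    rcases h : hv g i with a | a
    · simp only [Sum.elim_inl, id]
      rw [← h, Equiv.symm_apply_apply]
    · rw [h] at hi
      simp at hi
  right_inv := by
    intro a
    simp

lemma fr_half {W V : Matrix (Fin (2 * g)) (Fin g) ℂ} (a : Fin g) (i : Fin (2 * g)) :
    fr W V i ((hv g).symm (Sum.inl a)) = W i a := by
  unfold fr
  rw [Matrix.submatrix_apply, Equiv.apply_symm_apply]
  rfl

lemma coord {W V : Matrix (Fin (2 * g)) (Fin g) ℂ} {P N : Matrix (Fin (2 * g)) (Fin (2 * g)) ℂ}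
    {Y : Matrix (Fin g) (Fin g) ℂ} (hY : half P * Y = (1 + N) * W) :
    cols (wt g) 1 P * Y.submatrix (ixe g) (ixe g) = cols (wt g) 1 ((1 + N) * fr W V) := by
  ext a i
  obtain ⟨j, rfl⟩ := (ixe g).symm.surjective i
  have h1 := congrFun (congrFun hY a) j
  rw [half_eq] at h1
  rw [Matrix.mul_apply, ← (ixe g).symm.sum_comp]
  rw [Matrix.mul_apply] at h1
  have h2 : cols (wt g) 1 ((1 + N) * fr W V) a ((ixe g).symm j) = ((1 + N) * W : Matrix (Fin (2 * g)) (Fin g) ℂ) a j := by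
    show ((1 + N) * fr W V) a ((hv g).symm (Sum.inl j)) = _
    rw [Matrix.mul_apply, Matrix.mul_apply]
    exact Finset.sum_congr rfl fun c _ => by rw [fr_half]
  rw [h2, ← h1]
  refine Finset.sum_congr rfl fun c _ => ?_
  rw [Matrix.submatrix_apply, Equiv.apply_symm_apply, Equiv.apply_symm_apply]
  rfl

lemma exp_sq {M : Matrix (Fin (2 * g)) (Fin (2 * g)) ℂ} (h : M * M = 0) : IsNilpotent.exp M = 1 + M := by
  rw [IsNilpotent.exp_eq_sum (k := 2) (by rw [sq, h])]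
  simp [Finset.sum_range_succ]

open Pool.Agent.Y118.HP Pool.Agent.Y118.HG

/-- hyperelliptic families -/
theorem hyper (g N : ℕ) (a : Fin N → Fin (2 * g) → ℝ) (f : Fin N → ℚ[X]) (m : Fin N → Fin (2 * g + 1))
    (hf : ∀ j, (f j).map (algebraMap ℚ ℝ) = ∏ i, (X - C (a j i))) (h0 : ∀ j, StrictMono (er (a j) (m j) 0))
    (d m₀ : ℕ) :
    ∃ c M : ℝ, 0 < c ∧ ∀ (W V : Fin N → Matrix (Fin (2 * g)) (Fin g) ℂ)
      (b : Fin d → Fin N → Matrix (Fin (2 * g)) (Fin (2 * g)) ℂ), (∀ j, ∃ R S, Dec (W j) (V j) R S) →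
      (∀ y j, Tan (jm ℂ (2 * g)) (W j) (V j) (cmb b y j)) → (∀ y : Fin d → ℂ, (∀ j, cmb b y j = 0) → y = 0) →
      ∀ T : ℕ, 1 ≤ T → ∃ S : Finset (Fin N → ℕ), (S.card : ℝ) ≤ M * (T : ℝ) ^ ((N : ℝ) - c) ∧
      ∀ t : Fin N → ℕ, (∀ j, 1 ≤ t j ∧ t j ≤ T) → t ∉ S →
        (∀ j, StrictMono (er (a j) (m j) (1 / (t j : ℝ)))) ∧
        ∀ y : Fin d → ℂ, (∀ j, ∃ Y, half (Matrix.of (cper (er (a j) (m j) (1 / (t j : ℝ))))) * Y =
          (1 + cmb b y j) * W j) → NoRel m₀ y := by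
  classical
  have hn : Even (2 * g) := even_two_mul g
  have ha : ∀ j, StrictMono (a j) := fun j => (inGap_of_er (h0 j)).1
  have hg0 : ∀ j, InGap (a j) (m j) 0 := fun j => (inGap_of_er (h0 j)).2
  obtain ⟨c, hc, M, -, hmain⟩ := vver hn a ha m f hg0 hf (bd (2 * g) N d m₀) ((2 * g * N + 2) * m₀)
  refine ⟨c, M, hc, fun W V b hdec htan hinj T hT => ?_⟩
  choose R S hdec using hdec
  have hU : ∀ j, IsUnit (fr (W j) (V j)).det := fun j => fr_det (hdec j)
  have hlow : ∀ y j, Low (wt g) 1 ((fr (W j) (V j))⁻¹ * cmb b y j * fr (W j) (V j)) := fun y j =>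
    fr_low (hdec j) (htan y j).kills (htan y j).maps
  have hb : ∀ l j, Low (wt g) 1 ((fr (W j) (V j))⁻¹ * b l j * fr (W j) (V j)) := by
    intro l j
    have h1 : cmb b (Pi.single l 1) j = b l j := by
      unfold cmb
      rw [Finset.sum_eq_single l]
      · rw [Pi.single_eq_same, one_smul]
      · intro i _ hi
        rw [Pi.single_eq_of_ne hi, zero_smul]
      · intro h2
        exact absurd (Finset.mem_univ _) h2
    rw [← h1]
    exact hlow _ _
  have hfaith : ∀ y : Fin d → ℂ, (∀ j i l, wt g i = 1 - 1 → wt g l = 1 →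
      ((fr (W j) (V j))⁻¹ * cmb b y j * fr (W j) (V j)) i l = 0) → y = 0 := fun y hy =>
    hinj y fun j => fr_faithful (hdec j) (htan y j).kills (htan y j).maps (hy j)
  have hsq : ∀ y j, cmb b y j * cmb b y j = 0 := fun y j => (htan y j).mul (htan y j) (hdec j)
  have hexp : ∀ y j, IsNilpotent.exp (cmb b y j) = 1 + cmb b y j := fun y j => exp_sq (hsq y j)
  obtain ⟨Vs, hVf, hVr, hV⟩ := core (wt g) 1 (fun j => fr (W j) (V j)) b hU hb hfaith m₀
  obtain ⟨E, hE1, hE2⟩ := hmain Vs hVf hVr T hT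
  refine ⟨E, hE1, fun t ht htE => ?_⟩
  obtain ⟨hgap, hP⟩ := hE2 t ht htE
  have hcast : ∀ j, (((1 / (t j : ℚ) : ℚ)) : ℝ) = 1 / (t j : ℝ) := fun j => by push_cast; rfl
  refine ⟨fun j => ?_, fun y hy => ?_⟩
  · have := er_of_inGap (ha j) (hgap j)
    rwa [hcast] at this
  · set P : Fin N → Matrix (Fin (2 * g)) (Fin (2 * g)) ℂ := fun j => CM (a j) (m j) ((1 / (t j : ℚ) : ℚ) : ℝ) with hPdef
    have hPc : ∀ j, P j = Matrix.of (cper (er (a j) (m j) (1 / (t j : ℝ)))) := by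
      intro j
      rw [hPdef]
      simp only
      rw [hcast]
      rfl
    refine hV P y (fun j => ?_) fun Q hQd hQc hQ y' => ?_
    · obtain ⟨Y, hY⟩ := hy j
      rw [← hPc] at hY
      exact ⟨_, by rw [hexp]; exact coord hY⟩
    · have hQ' : MvPolynomial.aeval (px fun j => CM (a j) (m j) ((1 / (t j : ℚ) : ℚ) : ℝ)) Q = 0 := hQ
      have hfin := hP Q hQd hQc hQ' (fun j => IsNilpotent.exp (cmb b y' j) * IsNilpotent.exp (-cmb b y j) * P j) ?_
      · exact hfin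
      intro j
      have hmem := CM_mem hn (ha j) (hf j) (hgap j)
      have hs : ∀ y, (1 + cmb b y j) * jm ℂ (2 * g) * (1 + cmb b y j)ᵀ = jm ℂ (2 * g) := fun y =>
        (htan y j).symp (hdec j)
      show (IsNilpotent.exp (cmb b y' j) * IsNilpotent.exp (-cmb b y j) * P j) * _ *
        (IsNilpotent.exp (cmb b y' j) * IsNilpotent.exp (-cmb b y j) * P j)ᵀ = _
      rw [cmb_neg, hexp, hexp]
      set u := 1 + cmb b y' j with hu
      set v := 1 + cmb b (-y) j with hv'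
      set Qm := (-1 / 2 : ℂ) • (Qp (2 * g) (f j)).map (aeval ((1 / (t j : ℚ) : ℚ) : ℂ)) with hQm
      have e1 : (u * v * P j) * Qm * (u * v * P j)ᵀ = u * (v * (P j * Qm * (P j)ᵀ) * vᵀ) * uᵀ := by
        rw [Matrix.transpose_mul, Matrix.transpose_mul]
        simp only [Matrix.mul_assoc]
      rw [e1]
      have e2 : P j * Qm * (P j)ᵀ = (2 * Real.pi * Complex.I : ℂ) • jm ℂ (2 * g) := hmem
      rw [e2, Matrix.mul_smul, Matrix.smul_mul, hs (-y), Matrix.mul_smul, Matrix.smul_mul, hs y']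

end Pool.Agent.H61HS
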